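import Pool.Agent.Lib.MP_7eeb8f_lc.K

/-!
Counting lemmas and their consequences for complexity.
-/

set_option autoImplicit false
set_option linter.unusedSectionVars false

namespace Pool.Agent.Lib.MP_7eeb8f_lc

open Encodable Denumerable

variable {α β γ σ : Type} [Primcodable α] [Primcodable β] [Primcodable γ] [Primcodable σ]

theorem size_add_le (a b : ℕ) : (a + b).size ≤ a.size + b.size := by
  rw [Nat.size_le, pow_add]
  have h1 := Nat.lt_size_self a
  have h2 := Nat.lt_size_self b
  have h3 : (a + 1) * (b + 1) ≤ 2 ^ a.size * 2 ^ b.size := Nat.mul_le_mul h1 h2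
  nlinarith

theorem size_le_self (a : ℕ) : a.size ≤ a := by
  rw [Nat.size_le]
  exact Nat.lt_two_pow_self

theorem size_mul_le (a b : ℕ) : (a * b).size ≤ a.size + b.size := by
  rw [Nat.size_le, pow_add]
  have h1 := Nat.lt_size_self a
  have h2 := Nat.lt_size_self b
  calc a * b ≤ a * 2 ^ b.size := Nat.mul_le_mul le_rfl h2.le
    _ < 2 ^ a.size * 2 ^ b.size := Nat.mul_lt_mul_of_pos_right h1 (by positivity)

theorem size_two_pow (n : ℕ) : (2 ^ n).size = n + 1 := Nat.size_pow

theorem CardLE.finite {P : β → Prop} {n : ℕ} (h : CardLE P n) : {b | P b}.Finite := by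
  by_contra hinf
  obtain ⟨t, ht, hc⟩ := (show {b | P b}.Infinite from hinf).exists_subset_card_eq (n + 1)
  have := h t fun b hb => ht hb
  omega

/-- dyadic count of a finite nonempty predicate -/
theorem exists_log_card {P : β → Prop} {n : ℕ} (h : CardLE P n) (hne : ∃ b, P b) :
    ∃ j, CardGE P (2 ^ j) ∧ CardLE P (2 ^ (j + 1)) := by
  classical
  have hfin := h.finite
  set s := hfin.toFinset with hs
  have hmem : ∀ b, b ∈ s ↔ P b := fun b => by simp [hs]
  have hpos : s.card ≠ 0 := by
    obtain ⟨b, hb⟩ := hne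
    rw [Finset.card_ne_zero]
    exact ⟨b, (hmem b).2 hb⟩
  refine ⟨Nat.log 2 s.card, ⟨s, Nat.pow_log_le_self 2 hpos, fun b hb => (hmem b).1 hb⟩, ?_⟩
  intro t ht
  have h1 : t ⊆ s := fun b hb => (hmem b).2 (ht b hb)
  have h2 := Finset.card_le_card h1
  have h3 := Nat.lt_pow_succ_log_self (b := 2) (by norm_num) s.card
  omega

/-- few heavy fibres -/
theorem cardLE_heavy {P : β → Prop} {π : β → γ} {a j : ℕ} (h : CardLE P (2 ^ a)) :
    CardLE (fun v => CardGE (fun w => P w ∧ π w = v) (2 ^ j)) (2 ^ (a - j)) := by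
  classical
  intro T hT
  choose s hs hs' using hT
  let t : γ → Finset β := fun v => if hv : v ∈ T then s v hv else ∅
  have ht : ∀ v, v ∈ T → 2 ^ j ≤ (t v).card ∧ ∀ w ∈ t v, P w ∧ π w = v := by
    intro v hv
    simp only [t, hv, dif_pos]
    exact ⟨hs v hv, hs' v hv⟩
  have hdisj : ∀ x ∈ T, ∀ y ∈ T, x ≠ y → Disjoint (t x) (t y) := by
    intro x hx y hy hxy
    rw [Finset.disjoint_left]
    intro w hw hw'
    exact hxy (((ht x hx).2 w hw).2.symm.trans ((ht y hy).2 w hw').2)
  have h1 : (T.biUnion t).card = ∑ v ∈ T, (t v).card := Finset.card_biUnion hdisj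
  have h2 : (T.biUnion t).card ≤ 2 ^ a := by
    refine h _ fun w hw => ?_
    obtain ⟨v, hv, hw'⟩ := Finset.mem_biUnion.1 hw
    exact ((ht v hv).2 w hw').1
  have h3 : T.card * 2 ^ j ≤ 2 ^ a := by
    calc T.card * 2 ^ j = ∑ v ∈ T, 2 ^ j := by simp
      _ ≤ ∑ v ∈ T, (t v).card := Finset.sum_le_sum fun v hv => (ht v hv).1
      _ ≤ 2 ^ a := by rw [← h1]; exact h2
  rcases Nat.lt_or_ge a j with hlt | hge
  · have h4 : 2 ^ a < 2 ^ j := Nat.pow_lt_pow_right (by norm_num) hlt
    have h5 : T.card = 0 := by
      by_contra h6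
      have h7 : 1 ≤ T.card := Nat.one_le_iff_ne_zero.2 h6
      nlinarith
    rw [h5]; exact Nat.zero_le _
  · obtain ⟨d, rfl⟩ := Nat.exists_eq_add_of_le hge
    rw [Nat.add_sub_cancel_left]
    rw [pow_add, mul_comm] at h3
    exact Nat.le_of_mul_le_mul_left h3 (by positivity)

variable {U : List Bool →. List Bool} (hU : IsOptimal U)

include hU

/-- The heavy fibre lemma. -/
theorem K_heavy [DecidableEq β] [DecidableEq γ] {A : α × β → Prop} (hA : SD A) {π : β → γ}
    (hπ : Computable π) :
    ∃ c : ℕ, ∀ (θ : α) (j a : ℕ) (v : γ), CardLE (fun w => A (θ, w)) (2 ^ a) →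
      CardGE (fun w => A (θ, w) ∧ π w = v) (2 ^ j) →
      K U v + j ≤ a + c * (K U θ + j.size + 1) := by
  have h1 : SD fun x : ((α × ℕ) × γ) × β => A (x.1.1.1, x.2) ∧ π x.2 = x.1.2 := by
    refine SD.and ?_ ?_
    · exact hA.comp ((Computable.fst.comp (Computable.fst.comp Computable.fst)).pair
        Computable.snd)
    · exact SD.of_computable (fun x : ((α × ℕ) × γ) × β => decide (π x.2 = x.1.2))
        (computable_decide_eq (hπ.comp Computable.snd) (Computable.snd.comp Computable.fst))
        (fun x => by simp)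
  have hM : Computable fun x : (α × ℕ) × γ => 2 ^ x.1.2 := by
    have h2 : Primrec fun n : ℕ => 2 ^ n := by
      have h3 : Primrec fun n : ℕ => ((fun m : ℕ => 2 * m)^[n] 1) :=
        Primrec.nat_iterate (f := fun n : ℕ => n) (g := fun _ : ℕ => 1)
          (h := fun _ m => 2 * m) Primrec.id (Primrec.const 1)
          (Primrec.nat_mul.comp (Primrec.const 2) Primrec.snd).to₂
      refine h3.of_eq fun n => ?_
      induction n with
      | zero => rfl
      | succ n ih => rw [Function.iterate_succ_apply', ih, pow_succ, mul_comm]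
    exact h2.to_comp.comp (Computable.snd.comp Computable.fst)
  have h2 : SD fun x : (α × ℕ) × γ =>
      CardGE (fun w => A (x.1.1, w) ∧ π w = x.2) (2 ^ x.1.2) := h1.cardGE hM
  obtain ⟨c1, hc1⟩ := K_index hU h2
  obtain ⟨c2, hc2⟩ := K_pair (α := α) (β := ℕ) hU
  obtain ⟨c3, hc3⟩ := K_nat hU
  refine ⟨9 + 3 * (c1 + c2 + c3) + 1, fun θ j a v ha hv => ?_⟩
  have h3 := hc1 (θ, j) v (2 ^ (a - j)) hv (cardLE_heavy ha)
  have h4 := hc2 θ j
  have h5 := hc3 j
  have h6 : j ≤ a := by
    have h7 : 2 ^ j ≤ 2 ^ a := (hv.mono (fun b hb => hb.1) le_rfl).le_of_cardLE ha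
    exact (Nat.pow_le_pow_iff_right (by norm_num)).1 h7
  rw [size_two_pow] at h3
  have h7 := size_le_self (K U (θ, j))
  have h8 := size_le_self (K U θ)
  have h9 : K U v + j ≤ a + (9 * K U θ + 3 * j.size + 3 * (c1 + c2 + c3) + 1) := by omega
  refine h9.trans (Nat.add_le_add_left ?_ a)
  generalize K U θ = x
  generalize j.size = y
  generalize c1 + c2 + c3 = z
  nlinarith [Nat.zero_le (x * z), Nat.zero_le (y * z), Nat.zero_le x, Nat.zero_le y]

/-- The light fibre lemma. -/
theorem K_light [DecidableEq β] [DecidableEq γ] {A : α × β → Prop} (hA : SD A) {π : β → γ}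
    (hπ : Computable π) :
    ∃ c : ℕ, ∀ (θ : α) (w : β) (M : ℕ), A (θ, w) →
      CardLE (fun w' => A (θ, w') ∧ π w' = π w) M →
      K U w ≤ K U (π w) + M.size + c * (K U θ + (K U (π w)).size + 1) := by
  have h1 : SD fun x : (α × γ) × β => A (x.1.1, x.2) ∧ π x.2 = x.1.2 := by
    refine SD.and ?_ ?_
    · exact hA.comp ((Computable.fst.comp Computable.fst).pair Computable.snd)
    · exact SD.of_computable (fun x : (α × γ) × β => decide (π x.2 = x.1.2))
        (computable_decide_eq (hπ.comp Computable.snd) (Computable.snd.comp Computable.fst))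
        (fun x => by simp)
  obtain ⟨c1, hc1⟩ := K_index hU h1
  obtain ⟨c2, hc2⟩ := K_pair (α := α) (β := γ) hU
  refine ⟨9 + c1 + 3 * c2, fun θ w M hw hM => ?_⟩
  have h3 := hc1 (θ, π w) w M ⟨hw, rfl⟩ hM
  have h4 := hc2 θ (π w)
  have h8 := size_le_self (K U θ)
  have h5 : (K U (θ, π w)).size ≤ 3 * K U θ + (K U (π w)).size + c2 := by
    refine (Nat.size_le_size (show K U (θ, π w) ≤ K U (π w) + (3 * K U θ + c2) by omega)).trans ?_
    refine (size_add_le _ _).trans ?_
    have := size_le_self (3 * K U θ + c2)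
    omega
  have h9 : K U w ≤ K U (π w) + M.size +
      (9 * K U θ + 2 * (K U (π w)).size + c1 + 3 * c2) := by omega
  refine h9.trans (Nat.add_le_add_left ?_ _)
  generalize K U θ = x
  generalize (K U (π w)).size = y
  nlinarith [Nat.zero_le (x * c1), Nat.zero_le (x * c2), Nat.zero_le (y * c1),
    Nat.zero_le (y * c2)]

/-- The substitution lemma: replace the first string of a tuple by a related one. -/
theorem K_subst {r : (α × List Bool) × List Bool → Prop} (hr : SD r) :
    ∃ c : ℕ, ∀ (θ : α) (x x' : List Bool) (l : List (List Bool)) (M : ℕ), r ((θ, x), x') →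
      CardLE (fun y => r ((θ, x), y)) M →
      K U (x' :: l) ≤ K U (x :: l) + M.size + c * (K U θ + (K U (x :: l)).size + 1) := by
  have hhead : Computable fun l : List (List Bool) => l.headI := Primrec.list_headI.to_comp
  have htail : Computable fun l : List (List Bool) => l.tail := Primrec.list_tail.to_comp
  have h1 : SD fun y : (α × List (List Bool)) × List (List Bool) =>
      r ((y.1.1, y.1.2.headI), y.2.headI) ∧ y.2.headI :: y.1.2.tail = y.2 := by
    refine SD.and ?_ ?_
    · exact hr.comp (((Computable.fst.comp Computable.fst).pair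
        (hhead.comp (Computable.snd.comp Computable.fst))).pair (hhead.comp Computable.snd))
    · exact SD.of_computable (fun y : (α × List (List Bool)) × List (List Bool) =>
        decide (y.2.headI :: y.1.2.tail = y.2))
        (computable_decide_eq (Computable.list_cons.comp (hhead.comp Computable.snd)
          (htail.comp (Computable.snd.comp Computable.fst))) Computable.snd)
        (fun x => by simp)
  obtain ⟨c1, hc1⟩ := K_index hU h1
  obtain ⟨c2, hc2⟩ := K_pair (α := α) (β := List (List Bool)) hU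
  refine ⟨9 + c1 + 3 * c2, fun θ x x' l M hx hM => ?_⟩
  have hM' : CardLE (fun v : List (List Bool) =>
      r ((θ, (x :: l).headI), v.headI) ∧ v.headI :: (x :: l).tail = v) M := by
    classical
    intro s hs
    have h2 : (s.image fun v : List (List Bool) => v.headI).card ≤ M := by
      refine hM _ fun y hy => ?_
      obtain ⟨v, hv, rfl⟩ := Finset.mem_image.1 hy
      exact (hs v hv).1
    rw [Finset.card_image_of_injOn] at h2
    · exact h2
    · intro v hv v' hv' he
      have e1 := (hs v hv).2
      have e2 := (hs v' hv').2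
      simp only at he
      rw [← e1, ← e2, he]
  have h3 := hc1 (θ, x :: l) (x' :: l) M ⟨hx, rfl⟩ hM'
  have h4 := hc2 θ (x :: l)
  have h8 := size_le_self (K U θ)
  have h5 : (K U (θ, x :: l)).size ≤ 3 * K U θ + (K U (x :: l)).size + c2 := by
    refine (Nat.size_le_size
      (show K U (θ, x :: l) ≤ K U (x :: l) + (3 * K U θ + c2) by omega)).trans ?_
    refine (size_add_le _ _).trans ?_
    have := size_le_self (3 * K U θ + c2)
    omega
  have h9 : K U (x' :: l) ≤ K U (x :: l) + M.size +
      (9 * K U θ + 2 * (K U (x :: l)).size + c1 + 3 * c2) := by omega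
  refine h9.trans (Nat.add_le_add_left ?_ _)
  generalize K U θ = x
  generalize (K U (_ :: l)).size = y
  nlinarith [Nat.zero_le (x * c1), Nat.zero_le (x * c2), Nat.zero_le (y * c1),
    Nat.zero_le (y * c2)]

/-- short lists of small numbers -/
theorem K_list_nat (n : ℕ) : ∃ c : ℕ, ∀ (l : List ℕ) (B : ℕ), l.length = n → (∀ x ∈ l, x ≤ B) →
    K U l ≤ c * (B.size + 1) := by
  induction n with
  | zero =>
    refine ⟨K U ([] : List ℕ), fun l B hl _ => ?_⟩
    rw [List.length_eq_zero_iff] at hl
    subst hl
    nlinarith [Nat.zero_le (K U ([] : List ℕ) * B.size)]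
  | succ n ih =>
    obtain ⟨c, hc⟩ := ih
    obtain ⟨c1, hc1⟩ := K_le_of_computable (f := fun x : ℕ × List ℕ => x.1 :: x.2) hU
      (Computable.list_cons.comp Computable.fst Computable.snd)
    obtain ⟨c2, hc2⟩ := K_pair (α := ℕ) (β := List ℕ) hU
    obtain ⟨c3, hc3⟩ := K_nat hU
    refine ⟨c + 3 + c1 + c2 + 3 * c3, fun l B hl hB => ?_⟩
    cases l with
    | nil => simp at hl
    | cons x l =>
      simp only [List.length_cons, add_left_inj] at hl
      have h1 := hc l B hl fun y hy => hB y (List.mem_cons_of_mem _ hy)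
      have h2 := hc1 (x, l)
      have h3 := hc2 x l
      have h4 := hc3 x
      have h5 : x.size ≤ B.size := Nat.size_le_size (hB x (by simp))
      have h6 := size_le_self (K U x)
      simp only at h2
      have h7 : K U (x :: l) ≤ c * (B.size + 1) + 3 * B.size + c1 + c2 + 3 * c3 := by omega
      refine h7.trans ?_
      nlinarith [Nat.zero_le (c1 * B.size), Nat.zero_le (c2 * B.size),
        Nat.zero_le (c3 * B.size)]

/-- a crude upper bound for the complexity of short lists of strings -/
theorem K_list_string (n : ℕ) : ∃ c : ℕ, ∀ l : List (List Bool), l.length ≤ n →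
    K U l ≤ c * ((l.map List.length).sum + 1) := by
  induction n with
  | zero =>
    refine ⟨K U ([] : List (List Bool)), fun l hl => ?_⟩
    obtain rfl : l = [] := List.length_eq_zero_iff.1 (Nat.le_zero.1 hl)
    simp
  | succ n ih =>
    obtain ⟨c, hc⟩ := ih
    obtain ⟨c1, hc1⟩ := K_le_of_computable (f := fun x : List Bool × List (List Bool) =>
      x.1 :: x.2) hU (Computable.list_cons.comp Computable.fst Computable.snd)
    obtain ⟨c2, hc2⟩ := K_pair (α := List Bool) (β := List (List Bool)) hU
    obtain ⟨c3, hc3⟩ := K_length hU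
    refine ⟨c + 3 + c1 + c2 + 3 * c3 + K U ([] : List (List Bool)), fun l hl => ?_⟩
    cases l with
    | nil => simp
    | cons x l =>
      simp only [List.length_cons, add_le_add_iff_right] at hl
      have h1 := hc l hl
      have h2 := hc1 (x, l)
      have h3 := hc2 x l
      have h4 := hc3 x
      have h6 := size_le_self (K U x)
      simp only at h2
      simp only [List.map_cons, List.sum_cons]
      generalize (l.map List.length).sum = s at h1 ⊢
      have h7 : K U (x :: l) ≤ c * (s + 1) + 3 * x.length + c1 + c2 + 3 * c3 := by omega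
      refine h7.trans ?_
      nlinarith [Nat.zero_le (c1 * (x.length + s)), Nat.zero_le (c2 * (x.length + s)),
        Nat.zero_le (c3 * (x.length + s)), Nat.zero_le (c * x.length),
        Nat.zero_le (K U ([] : List (List Bool)) * (x.length + s)),
        Nat.zero_le (K U ([] : List (List Bool)))]

end Pool.Agent.Lib.MP_7eeb8f_lc
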