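import Mathlib

/-!
Definitions used in the statement: plain Kolmogorov complexity with respect to a decompressor,
optimal decompressors, the complexity profile of a tuple of strings.
-/

set_option autoImplicit false

namespace Pool.Agent.Lib.MP_7eeb8f_lc

/-- The plain Kolmogorov complexity of the string `x` with respect to the decompressor `D`:
the length of a shortest program `p` with `D p = x`. -/
noncomputable def kolmogorov (D : List Bool →. List Bool) (x : List Bool) : ℕ :=
  sInf {n : ℕ | ∃ p : List Bool, p.length = n ∧ x ∈ D p}

/-- `U` is an optimal decompressor: it is partial recursive, and for every partial recursive `D`
there is a constant `c` such that whatever `D` produces from a program `p`, the decompressor `U`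
produces from some program of length at most `p.length + c`. -/
structure IsOptimal (U : List Bool →. List Bool) : Prop where
  partrec : Partrec U
  optimal : ∀ D : List Bool →. List Bool, Partrec D →
    ∃ c : ℕ, ∀ p x : List Bool, x ∈ D p → ∃ q : List Bool, x ∈ U q ∧ q.length ≤ p.length + c

/-- `e` is a computable encoding of tuples of strings by strings: it is computable and injective
on the tuples of each fixed length. -/
structure IsTupleEncoding (e : List (List Bool) → List Bool) : Prop where
  computable : Computable e
  injective : ∀ l l' : List (List Bool), l.length = l'.length → e l = e l' → l = l'

/-- The coordinate with index `S` of the complexity profile of the tuple `z`: the complexity of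
the subtuple of the `z i` with `i ∈ S`, listed in the order of the indices and encoded by `e`. -/
noncomputable def profile (U : List Bool →. List Bool) (e : List (List Bool) → List Bool)
    {n : ℕ} (z : Fin n → List Bool) (S : Finset (Fin n)) : ℕ :=
  kolmogorov U (e ((S.sort (· ≤ ·)).map z))

end Pool.Agent.Lib.MP_7eeb8f_lc
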