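import Pool.Agent.Lib.MP_7eeb8f_lc.Main

/-!
Reduction of the general case to incompressible strings, and to the profile of the statement.
-/

set_option autoImplicit false
set_option linter.unusedSectionVars false

namespace Pool.Agent.Lib.MP_7eeb8f_lc

open Encodable Denumerable

variable {U : List Bool →. List Bool} (hU : IsOptimal U)

theorem proj_swap {k : ℕ} {x p : List Bool} {c a : ℕ}
    (H : ∀ l, K U (p :: l) ≤ K U (x :: l) + c * (a + (K U (x :: l)).size))
    (y : Fin k → List Bool) (S : Finset (Fin (k + 1))) :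
    K U (proj S (Fin.cons p y : Tup k)) ≤ K U (proj S (Fin.cons x y : Tup k)) +
      c * (a + (K U (proj S (Fin.cons x y : Tup k))).size) := by
  rcases proj_cons_cases S with hc | hc
  · rw [hc p x y]
    exact Nat.le_add_right _ _
  · obtain ⟨l, hl⟩ := hc y
    rw [hl, hl]
    exact H l

theorem sum_length_proj_le {k : ℕ} (z : Tup k) (S : Finset (Fin (k + 1))) :
    ((proj S z).map List.length).sum ≤ ∑ i, (z i).length := by
  have h1 : ((proj S z).map List.length).sum = ∑ i ∈ S, (z i).length := by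
    rw [proj, List.map_map]
    have h2 : (S.sort (· ≤ ·)).toFinset = S := Finset.sort_toFinset S (· ≤ ·)
    conv_rhs => rw [← h2]
    rw [List.sum_toFinset _ (Finset.sort_nodup S (· ≤ ·))]
    rfl
  rw [h1]
  exact Finset.sum_le_sum_of_subset (Finset.subset_univ S)

theorem length_proj {k : ℕ} (z : Tup k) (S : Finset (Fin (k + 1))) :
    (proj S z).length = S.card := by
  simp [proj]

include hU

/-- programs versus strings -/
theorem exists_short_program : ∃ c : ℕ, ∀ (x : List Bool) (m : ℕ), kolmogorov U x = m →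
    ∃ p : List Bool, p.length = m ∧ m ≤ K U p + c ∧
      (∀ l, K U (p :: l) ≤ K U (x :: l) + c * (K U m + 2 + (K U (x :: l)).size)) ∧
      (∀ l, K U (x :: l) ≤ K U (p :: l) + c * (2 + (K U (p :: l)).size)) := by
  have h1 : SD fun y : (ℕ × List Bool) × List Bool => y.2.length = y.1.1 ∧ y.1.2 ∈ U y.2 := by
    refine SD.and ?_ ?_
    · exact SD.of_computable (fun y : (ℕ × List Bool) × List Bool =>
        decide (y.2.length = y.1.1))
        (computable_decide_eq (Computable.list_length.comp Computable.snd)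
          (Computable.fst.comp Computable.fst)) (fun x => by simp)
    · exact (SD.graph hU.partrec).comp (g := fun y : (ℕ × List Bool) × List Bool => (y.2, y.1.2))
        (Computable.snd.pair (Computable.snd.comp Computable.fst))
  obtain ⟨τ, hτ1, hτ2, hτ3, -, hτ5⟩ := h1.trunc (T := fun _ => 1) (Computable.const 1)
  have h2 : SD fun y : (ℕ × List Bool) × List Bool => y.2 ∈ U y.1.2 :=
    (SD.graph hU.partrec).comp (g := fun y : (ℕ × List Bool) × List Bool => (y.1.2, y.2))
      ((Computable.snd.comp Computable.fst).pair Computable.snd)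
  obtain ⟨c1, hc1⟩ := K_subst hU hτ1
  obtain ⟨c2, hc2⟩ := K_subst hU h2
  obtain ⟨c3, hc3⟩ := K_le_of_partrec hU hU.partrec
  obtain ⟨c4, hc4⟩ := kolmogorov_le_K hU
  refine ⟨c1 + 1 + c2 * (K U (0 : ℕ) + 1) + c3 + c4, fun x m hm => ?_⟩
  obtain ⟨p, hp, hp'⟩ := exists_program hU x
  obtain ⟨p, hp⟩ := hτ5 (m, x) Nat.one_pos ⟨p, hp'.trans hm, hp⟩
  obtain ⟨hpl, hpU⟩ := hτ2 _ _ hp
  have h3 : Nat.size 1 = 1 := by simp
  refine ⟨p, hpl, ?_, fun l => ?_, fun l => ?_⟩
  · have h4 := hc3 p x hpU
    have h5 := hc4 x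
    omega
  · have h4 := hc1 m x p l 1 hp (hτ3 _)
    generalize (K U (x :: l)).size = s at h4 ⊢
    generalize K U m = a at h4 ⊢
    nlinarith [Nat.zero_le (c1 * (a + s)), Nat.zero_le (c2 * (K U (0 : ℕ) + 1) * (a + 2 + s)),
      Nat.zero_le ((c3 + c4) * (a + 2 + s)), Nat.zero_le (a + s)]
  · have h4 := hc2 0 p x l 1 hpU (by
      intro s hs
      rw [Finset.card_le_one]
      intro b hb c hc
      exact Part.mem_unique (hs b hb) (hs c hc))
    generalize (K U (p :: l)).size = s at h4 ⊢
    have h5 : c2 * (K U (0 : ℕ) + s + 1) ≤ c2 * (K U (0 : ℕ) + 1) * (2 + s) := by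
      rw [mul_assoc]
      refine Nat.mul_le_mul le_rfl ?_
      nlinarith [Nat.zero_le (K U (0 : ℕ) * s), Nat.zero_le (K U (0 : ℕ))]
    nlinarith [Nat.zero_le (c1 * (2 + s)), Nat.zero_le ((c3 + c4) * (2 + s))]

/-- encodings of tuples by strings do not matter -/
theorem K_encoding {e : List (List Bool) → List Bool} (he : IsTupleEncoding e) (n : ℕ) :
    ∃ c : ℕ, ∀ l : List (List Bool), l.length ≤ n →
      kolmogorov U (e l) ≤ K U l + c ∧
      K U l ≤ kolmogorov U (e l) + c * ((kolmogorov U (e l)).size + 1) := by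
  obtain ⟨c1, hc1⟩ := K_le_of_computable hU he.computable
  obtain ⟨c2, hc2⟩ := kolmogorov_le_K hU
  obtain ⟨c3, hc3⟩ := K_string_le hU
  have h1 : ∀ r : ℕ, SD fun y : List Bool × List (List Bool) => y.2.length = r ∧ e y.2 = y.1 := by
    intro r
    refine SD.and ?_ ?_
    · exact SD.of_computable (fun y : List Bool × List (List Bool) => decide (y.2.length = r))
        (computable_decide_eq (Computable.list_length.comp Computable.snd)
          (Computable.const r)) (fun x => by simp)
    · exact SD.of_computable (fun y : List Bool × List (List Bool) => decide (e y.2 = y.1))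
        (computable_decide_eq (he.computable.comp Computable.snd) Computable.fst)
        (fun x => by simp)
  choose c4 hc4 using fun r => K_index hU (h1 r)
  refine ⟨c1 + c2 + 3 * c3 + 2 + ∑ r ∈ Finset.range (n + 1), c4 r, fun l hl => ⟨?_, ?_⟩⟩
  · have h2 := hc1 l
    have h3 := hc2 (e l)
    omega
  · have h2 := hc4 l.length (e l) l 1 ⟨rfl, rfl⟩ (by
      intro s hs
      rw [Finset.card_le_one]
      intro b hb c hc
      exact he.injective b c ((hs b hb).1.trans (hs c hc).1.symm)
        ((hs b hb).2.trans (hs c hc).2.symm))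
    have h3 := hc3 (e l)
    have h4 : Nat.size 1 = 1 := by simp
    have h5 : c4 l.length ≤ ∑ r ∈ Finset.range (n + 1), c4 r :=
      Finset.single_le_sum (f := c4) (fun _ _ => Nat.zero_le _)
        (Finset.mem_range.2 (Nat.lt_succ_of_le hl))
    have h6 : (K U (e l)).size ≤ (kolmogorov U (e l)).size + c3 := by
      refine (Nat.size_le_size h3).trans ((size_add_le _ _).trans ?_)
      have := size_le_self c3
      omega
    generalize (∑ r ∈ Finset.range (n + 1), c4 r) = t at h5 ⊢
    generalize (kolmogorov U (e l)).size = s at h6 ⊢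
    have h7 : K U l ≤ kolmogorov U (e l) + (2 * s + t + 3 * c3 + 1) := by omega
    refine h7.trans (Nat.add_le_add_left ?_ _)
    nlinarith [Nat.zero_le (c1 * (s + 1)), Nat.zero_le (c2 * (s + 1)),
      Nat.zero_le (c3 * s), Nat.zero_le (t * s), Nat.zero_le c1, Nat.zero_le c2]

omit hU in
/-- The data of the problem. -/
structure Data (U : List Bool →. List Bool) (k : ℕ) where
  x : List Bool
  x' : List Bool
  y : Fin k → List Bool
  h : kolmogorov U x = kolmogorov U x'

omit hU in
/-- the bound for the lengths -/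
def Data.N {U : List Bool →. List Bool} {k : ℕ} (i : Data U k) : ℕ :=
  i.x.length + i.x'.length + ∑ t, (i.y t).length

set_option maxHeartbeats 4000000 in
theorem main_nat {e : List (List Bool) → List Bool} (he : IsTupleEncoding e) (k : ℕ) :
    ∃ c : ℕ, ∀ i : Data U k, ∃ y' : Fin k → List Bool, ∀ S : Finset (Fin (k + 1)),
      profile U e (Fin.cons i.x i.y : Tup k) S ≤
        profile U e (Fin.cons i.x' y' : Tup k) S + c * (i.N.size + 1) ∧
      profile U e (Fin.cons i.x' y' : Tup k) S ≤
        profile U e (Fin.cons i.x i.y : Tup k) S + c * (i.N.size + 1) := by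
  classical
  let L : Data U k → ℕ := fun i => i.N.size + 1
  have hL : ∀ i, L i = i.N.size + 1 := fun i => rfl
  have hL1 : ∀ i, 1 ≤ L i := fun i => by rw [hL]; omega
  have hLN : ∀ i, L i ≤ i.N + 1 := fun i => by
    have := size_le_self i.N
    rw [hL]; omega
  -- sizes
  have sm_size : ∀ (d : ℕ) (f : Data U k → ℕ), (∀ i, f i ≤ d * (i.N + 1)) →
      ∃ c : ℕ, ∀ i, (f i).size ≤ c * L i := by
    intro d f hf
    refine ⟨d.size + 2, fun i => ?_⟩
    have h1 := (Nat.size_le_size (hf i)).trans (size_mul_le _ _)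
    have h2 := size_add_le i.N 1
    have h3 : Nat.size 1 = 1 := by simp
    have h4 : d.size ≤ d.size * L i := Nat.le_mul_of_pos_right _ (hL1 i)
    have h5 := hL i
    rw [add_mul]
    omega
  obtain ⟨c1, hc1⟩ := exists_short_program hU
  choose p hp1 hp2 hp3 hp4 using fun i : Data U k => hc1 i.x (kolmogorov U i.x) rfl
  choose p' hp1' hp2' hp3' hp4' using fun i : Data U k => hc1 i.x' (kolmogorov U i.x) i.h.symm
  let m : Data U k → ℕ := fun i => kolmogorov U i.x
  obtain ⟨cn, hcn⟩ := K_nat hU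
  obtain ⟨cl, hcl⟩ := kolmogorov_length hU
  have hmN : ∀ i, m i ≤ i.N + cl := by
    intro i
    have h1 := hcl i.x
    have h2 : i.x.length ≤ i.N := by unfold Data.N; omega
    show kolmogorov U i.x ≤ _
    omega
  have hmN' : ∀ i, m i ≤ (cl + 1) * (i.N + 1) := fun i => by
    have := hmN i
    nlinarith [Nat.zero_le (cl * i.N)]
  obtain ⟨c2, hc2⟩ : ∃ c : ℕ, ∀ i, K U (m i) ≤ c * L i := by
    obtain ⟨c, hc⟩ := sm_size (cl + 1) m hmN'
    refine ⟨c + cn, fun i => ?_⟩
    have h1 := hc i
    have h2 := hcn (m i)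
    have h3 : cn ≤ cn * L i := Nat.le_mul_of_pos_right _ (hL1 i)
    rw [add_mul]
    omega
  -- complexity of the given tuple
  obtain ⟨c3, hc3⟩ := K_list_string hU (k + 1)
  have hz : ∀ (i : Data U k) (S : Finset (Fin (k + 1))), K U (proj S (Fin.cons i.x i.y : Tup k)) ≤ c3 * (i.N + 1) := by
    intro i S
    have h1 := hc3 (proj S (Fin.cons i.x i.y : Tup k)) (by
      rw [length_proj]
      exact (Finset.card_le_univ S).trans (by simp))
    have h2 := sum_length_proj_le (Fin.cons i.x i.y : Tup k) S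
    rw [Fin.sum_univ_succ] at h2
    simp only [Fin.cons_zero, Fin.cons_succ] at h2
    refine h1.trans (Nat.mul_le_mul le_rfl (Nat.succ_le_succ (h2.trans ?_)))
    unfold Data.N
    omega
  obtain ⟨c4, hc4⟩ : ∃ c : ℕ, ∀ (i : Data U k) (S : Finset (Fin (k + 1))),
      (K U (proj S (Fin.cons i.x i.y : Tup k))).size ≤ c * L i := by
    have h1 := fun S => sm_size c3 (fun i => K U (proj S (Fin.cons i.x i.y : Tup k)))
      (fun i => hz i S)
    choose e he using h1
    exact ⟨∑ S, e S, fun i S => (he S i).trans (Nat.mul_le_mul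
      (Finset.single_le_sum (fun _ _ => Nat.zero_le _) (Finset.mem_univ S)) le_rfl)⟩
  -- replace x by p
  obtain ⟨c5, hc5⟩ : ∃ c : ℕ, ∀ (i : Data U k) (S : Finset (Fin (k + 1))), K U (proj S (Fin.cons (p i) i.y : Tup k)) ≤
      K U (proj S (Fin.cons i.x i.y : Tup k)) + c * L i := by
    refine ⟨c1 * (c2 + 2 + c4), fun i S => ?_⟩
    have h1 := proj_swap (hp3 i) i.y S
    have h2 := hc2 i
    have h3 := hc4 i S
    have h4 := hL1 i
    have h5 : K U (m i) + 2 + (K U (proj S (Fin.cons i.x i.y : Tup k))).size ≤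
        (c2 + 2 + c4) * L i := by
      rw [add_mul, add_mul]; omega
    rw [mul_assoc]
    exact h1.trans (Nat.add_le_add_left (Nat.mul_le_mul le_rfl h5) _)
  have hzp : ∀ (i : Data U k) (S : Finset (Fin (k + 1))), K U (proj S (Fin.cons (p i) i.y : Tup k)) ≤ (c3 + c5) * (i.N + 1) := by
    intro i S
    have h1 := hc5 i S
    have h2 := hz i S
    have h3 := Nat.mul_le_mul (le_refl c5) (hLN i)
    rw [add_mul]
    omega
  obtain ⟨c6, hc6⟩ : ∃ c : ℕ, ∀ (i : Data U k) (S : Finset (Fin (k + 1))), K U (proj S (Fin.cons i.x i.y : Tup k)) ≤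
      K U (proj S (Fin.cons (p i) i.y : Tup k)) + c * L i := by
    have h1 := fun S => sm_size (c3 + c5) (fun i => K U (proj S (Fin.cons (p i) i.y : Tup k)))
      (fun i => hzp i S)
    choose e he using h1
    refine ⟨c1 * (2 + ∑ S, e S), fun i S => ?_⟩
    have h1 := proj_swap (hp4 i) i.y S
    have h3 := (he S i).trans (Nat.mul_le_mul
      (Finset.single_le_sum (fun _ _ => Nat.zero_le _) (Finset.mem_univ S)) le_rfl)
    have h4 := hL1 i
    have h5 : 2 + (K U (proj S (Fin.cons (p i) i.y : Tup k))).size ≤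
        (2 + ∑ S, e S) * L i := by
      rw [add_mul]; omega
    rw [mul_assoc]
    exact h1.trans (Nat.add_le_add_left (Nat.mul_le_mul le_rfl h5) _)
  -- apply the theorem for incompressible strings
  obtain ⟨c7, hc7⟩ := main_incompressible hU k c1
  let N' : Data U k → ℕ := fun i => (c3 + c5 + cl + 1) * (i.N + 1)
  have hc1N : ∀ i, c1 ≤ c1 * ((N' i).size + 1) := fun i =>
    Nat.le_mul_of_pos_right _ (Nat.succ_pos _)
  let I : Data U k → Inst U k c1 := fun i =>
    { N := N' i
      m := m i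
      p := p i
      p' := p' i
      y := i.y
      hp := hp1 i
      hp' := hp1' i
      hm := (hmN' i).trans (Nat.mul_le_mul (by omega) le_rfl)
      hN := fun S => (hzp i S).trans (Nat.mul_le_mul (by omega) le_rfl)
      hK := (hp2 i).trans (Nat.add_le_add_left (hc1N i) _)
      hK' := (hp2' i).trans (Nat.add_le_add_left (hc1N i) _) }
  choose y' hy' using fun i => hc7 (I i)
  obtain ⟨c8, hc8⟩ : ∃ c : ℕ, ∀ i, (N' i).size + 1 ≤ c * L i := by
    obtain ⟨c, hc⟩ := sm_size (c3 + c5 + cl + 1) N' fun i => le_rfl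
    refine ⟨c + 1, fun i => ?_⟩
    have h1 := hc i
    have h2 := hL1 i
    rw [add_mul]
    omega
  have hA : ∀ (i : Data U k) (S : Finset (Fin (k + 1))), K U (proj S (Fin.cons (p i) i.y : Tup k)) ≤
      K U (proj S (Fin.cons (p' i) (y' i) : Tup k)) + c7 * c8 * L i := by
    intro i S
    have h1 := (hy' i S).1
    rw [mul_assoc]
    exact h1.trans (Nat.add_le_add_left (Nat.mul_le_mul le_rfl (hc8 i)) _)
  have hB : ∀ (i : Data U k) (S : Finset (Fin (k + 1))), K U (proj S (Fin.cons (p' i) (y' i) : Tup k)) ≤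
      K U (proj S (Fin.cons (p i) i.y : Tup k)) + c7 * c8 * L i := by
    intro i S
    have h1 := (hy' i S).2
    rw [mul_assoc]
    exact h1.trans (Nat.add_le_add_left (Nat.mul_le_mul le_rfl (hc8 i)) _)
  have hzp' : ∀ (i : Data U k) (S : Finset (Fin (k + 1))), K U (proj S (Fin.cons (p' i) (y' i) : Tup k)) ≤
      (c3 + c5 + c7 * c8) * (i.N + 1) := by
    intro i S
    have h1 := hB i S
    have h2 := hzp i S
    have h3 := Nat.mul_le_mul (le_refl (c7 * c8)) (hLN i)
    rw [add_mul]
    omega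
  -- replace p' by x'
  obtain ⟨c9, hc9⟩ : ∃ c : ℕ, ∀ (i : Data U k) (S : Finset (Fin (k + 1))), K U (proj S (Fin.cons i.x' (y' i) : Tup k)) ≤
      K U (proj S (Fin.cons (p' i) (y' i) : Tup k)) + c * L i := by
    have h1 := fun S => sm_size (c3 + c5 + c7 * c8)
      (fun i => K U (proj S (Fin.cons (p' i) (y' i) : Tup k))) (fun i => hzp' i S)
    choose e he using h1
    refine ⟨c1 * (2 + ∑ S, e S), fun i S => ?_⟩
    have h1 := proj_swap (hp4' i) (y' i) S
    have h3 := (he S i).trans (Nat.mul_le_mul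
      (Finset.single_le_sum (fun _ _ => Nat.zero_le _) (Finset.mem_univ S)) le_rfl)
    have h4 := hL1 i
    have h5 : 2 + (K U (proj S (Fin.cons (p' i) (y' i) : Tup k))).size ≤
        (2 + ∑ S, e S) * L i := by
      rw [add_mul]; omega
    rw [mul_assoc]
    exact h1.trans (Nat.add_le_add_left (Nat.mul_le_mul le_rfl h5) _)
  have hzx' : ∀ (i : Data U k) (S : Finset (Fin (k + 1))), K U (proj S (Fin.cons i.x' (y' i) : Tup k)) ≤
      (c3 + c5 + c7 * c8 + c9) * (i.N + 1) := by
    intro i S
    have h1 := hc9 i S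
    have h2 := hzp' i S
    have h3 := Nat.mul_le_mul (le_refl c9) (hLN i)
    rw [add_mul]
    omega
  obtain ⟨c10, hc10⟩ : ∃ c : ℕ, ∀ (i : Data U k) (S : Finset (Fin (k + 1))),
      (K U (proj S (Fin.cons i.x' (y' i) : Tup k))).size ≤ c * L i := by
    have h1 := fun S => sm_size (c3 + c5 + c7 * c8 + c9)
      (fun i => K U (proj S (Fin.cons i.x' (y' i) : Tup k))) (fun i => hzx' i S)
    choose e he using h1
    exact ⟨∑ S, e S, fun i S => (he S i).trans (Nat.mul_le_mul
      (Finset.single_le_sum (fun _ _ => Nat.zero_le _) (Finset.mem_univ S)) le_rfl)⟩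
  obtain ⟨c11, hc11⟩ : ∃ c : ℕ, ∀ (i : Data U k) (S : Finset (Fin (k + 1))), K U (proj S (Fin.cons (p' i) (y' i) : Tup k)) ≤
      K U (proj S (Fin.cons i.x' (y' i) : Tup k)) + c * L i := by
    refine ⟨c1 * (c2 + 2 + c10), fun i S => ?_⟩
    have h1 := proj_swap (hp3' i) (y' i) S
    have h2 := hc2 i
    have h3 := hc10 i S
    have h4 := hL1 i
    have h5 : K U (m i) + 2 + (K U (proj S (Fin.cons i.x' (y' i) : Tup k))).size ≤
        (c2 + 2 + c10) * L i := by
      rw [add_mul, add_mul]; omega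
    rw [mul_assoc]
    exact h1.trans (Nat.add_le_add_left (Nat.mul_le_mul le_rfl h5) _)
  -- pass to the encoding
  obtain ⟨c12, hc12⟩ := K_encoding hU he (k + 1)
  have hlen : ∀ (z : Tup k) (S : Finset (Fin (k + 1))), (proj S z).length ≤ k + 1 := fun z S => by
    rw [length_proj]
    exact (Finset.card_le_univ S).trans (by simp)
  have hprof : ∀ (z : Tup k) (S : Finset (Fin (k + 1))), profile U e z S = kolmogorov U (e (proj S z)) :=
    fun z S => rfl
  have hpz : ∀ (i : Data U k) (S : Finset (Fin (k + 1))), profile U e (Fin.cons i.x i.y : Tup k) S ≤ (c3 + c12) * (i.N + 1) := by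
    intro i S
    have h1 := (hc12 _ (hlen (Fin.cons i.x i.y : Tup k) S)).1
    have h2 := hz i S
    have h3 : c12 ≤ c12 * (i.N + 1) := Nat.le_mul_of_pos_right _ (Nat.succ_pos _)
    rw [hprof, add_mul]
    omega
  have hpx : ∀ (i : Data U k) (S : Finset (Fin (k + 1))), profile U e (Fin.cons i.x' (y' i) : Tup k) S ≤
      (c3 + c5 + c7 * c8 + c9 + c12) * (i.N + 1) := by
    intro i S
    have h1 := (hc12 _ (hlen (Fin.cons i.x' (y' i) : Tup k) S)).1
    have h2 := hzx' i S
    have h3 : c12 ≤ c12 * (i.N + 1) := Nat.le_mul_of_pos_right _ (Nat.succ_pos _)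
    rw [hprof, add_mul]
    omega
  obtain ⟨c13, hc13⟩ : ∃ c : ℕ, ∀ (i : Data U k) (S : Finset (Fin (k + 1))),
      (profile U e (Fin.cons i.x i.y : Tup k) S).size ≤ c * L i := by
    have h1 := fun S => sm_size (c3 + c12)
      (fun i => profile U e (Fin.cons i.x i.y : Tup k) S) (fun i => hpz i S)
    choose e he using h1
    exact ⟨∑ S, e S, fun i S => (he S i).trans (Nat.mul_le_mul
      (Finset.single_le_sum (fun _ _ => Nat.zero_le _) (Finset.mem_univ S)) le_rfl)⟩
  obtain ⟨c14, hc14⟩ : ∃ c : ℕ, ∀ (i : Data U k) (S : Finset (Fin (k + 1))),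
      (profile U e (Fin.cons i.x' (y' i) : Tup k) S).size ≤ c * L i := by
    have h1 := fun S => sm_size (c3 + c5 + c7 * c8 + c9 + c12)
      (fun i => profile U e (Fin.cons i.x' (y' i) : Tup k) S) (fun i => hpx i S)
    choose e he using h1
    exact ⟨∑ S, e S, fun i S => (he S i).trans (Nat.mul_le_mul
      (Finset.single_le_sum (fun _ _ => Nat.zero_le _) (Finset.mem_univ S)) le_rfl)⟩
  refine ⟨c12 + c5 + c6 + c7 * c8 + c9 + c11 + c12 * (c13 + c14 + 1), fun i =>
    ⟨y' i, fun S => ⟨?_, ?_⟩⟩⟩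
  · have a1 := (hc12 _ (hlen (Fin.cons i.x i.y : Tup k) S)).1
    have a2 := hc6 i S
    have a3 := hA i S
    have a4 := hc11 i S
    have a5 := (hc12 _ (hlen (Fin.cons i.x' (y' i) : Tup k) S)).2
    rw [← hprof] at a1 a5
    have a6 : (profile U e (Fin.cons i.x' (y' i) : Tup k) S).size + 1 ≤
        (c13 + c14 + 1) * L i := by
      have h1 := hc14 i S
      have h2 := hL1 i
      rw [add_mul, add_mul]; omega
    have a7 := Nat.mul_le_mul (le_refl c12) a6
    have a8 : c12 ≤ c12 * L i := Nat.le_mul_of_pos_right _ (hL1 i)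
    show _ ≤ _ + _ * L i
    rw [add_mul, add_mul, add_mul, add_mul, add_mul, add_mul, mul_assoc c12]
    omega
  · have a1 := (hc12 _ (hlen (Fin.cons i.x' (y' i) : Tup k) S)).1
    have a2 := hc9 i S
    have a3 := hB i S
    have a4 := hc5 i S
    have a5 := (hc12 _ (hlen (Fin.cons i.x i.y : Tup k) S)).2
    rw [← hprof] at a1 a5
    have a6 : (profile U e (Fin.cons i.x i.y : Tup k) S).size + 1 ≤
        (c13 + c14 + 1) * L i := by
      have h1 := hc13 i S
      have h2 := hL1 i
      rw [add_mul, add_mul]; omega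
    have a7 := Nat.mul_le_mul (le_refl c12) a6
    have a8 : c12 ≤ c12 * L i := Nat.le_mul_of_pos_right _ (hL1 i)
    show _ ≤ _ + _ * L i
    rw [add_mul, add_mul, add_mul, add_mul, add_mul, add_mul, mul_assoc c12]
    omega

/-- The final form with real logarithms. -/
theorem main_real {e : List (List Bool) → List Bool} (he : IsTupleEncoding e) (k : ℕ) :
    ∃ c : ℝ, ∀ x x' : List Bool, kolmogorov U x = kolmogorov U x' →
      ∀ y : Fin k → List Bool, ∃ y' : Fin k → List Bool,
        ∀ S : Finset (Fin (k + 1)),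
          |(profile U e (Fin.cons x y : Fin (k + 1) → List Bool) S : ℝ) -
            profile U e (Fin.cons x' y' : Fin (k + 1) → List Bool) S| ≤
            c * Real.log (2 + (x.length + x'.length + ∑ i, (y i).length : ℕ)) := by
  obtain ⟨c, hc⟩ := main_nat hU he k
  have hlog2 : 0 < Real.log 2 := Real.log_pos (by norm_num)
  refine ⟨c * (2 / Real.log 2), fun x x' hx y => ?_⟩
  obtain ⟨y', hy'⟩ := hc ⟨x, x', y, hx⟩
  refine ⟨y', fun S => ?_⟩
  obtain ⟨h1, h2⟩ := hy' S
  simp only at h1 h2
  have hN : (⟨x, x', y, hx⟩ : Data U k).N = x.length + x'.length + ∑ i, (y i).length := rfl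
  rw [hN] at h1 h2
  generalize x.length + x'.length + ∑ i, (y i).length = N at h1 h2 ⊢
  have h3 : ((N.size + 1 : ℕ) : ℝ) ≤ 2 / Real.log 2 * Real.log (2 + (N : ℕ)) := by
    have h4 : 2 ^ (N.size) ≤ 2 * (N + 1) := by
      rcases Nat.eq_zero_or_pos N with h0 | hpos
      · subst h0; simp
      · have h5 : N.size ≠ 0 := by
          rw [Ne, Nat.size_eq_zero]; omega
        obtain ⟨s, hs⟩ := Nat.exists_eq_succ_of_ne_zero h5
        have h6 : 2 ^ s ≤ N := by
          rw [← Nat.lt_size, hs]
          exact Nat.lt_succ_self s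
        rw [hs, pow_succ]
        omega
    have h5 : ((2 : ℝ)) ^ (N.size + 1) ≤ (2 + N) ^ 2 := by
      have h6 : (2 : ℝ) ^ N.size ≤ 2 * (N + 1) := by exact_mod_cast h4
      have h7 : (0 : ℝ) ≤ N := Nat.cast_nonneg N
      rw [pow_succ]
      nlinarith
    have h6 := Real.log_le_log (by positivity) h5
    rw [Real.log_pow, Real.log_pow] at h6
    rw [div_mul_eq_mul_div, le_div_iff₀ hlog2]
    exact_mod_cast h6
  have h4 : (c : ℝ) * ((N.size + 1 : ℕ) : ℝ) ≤
      c * (2 / Real.log 2) * Real.log (2 + (N : ℕ)) := by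
    rw [mul_assoc]
    exact mul_le_mul_of_nonneg_left h3 (Nat.cast_nonneg c)
  refine le_trans ?_ h4
  rw [abs_le]
  have h1' : (profile U e (Fin.cons x y : Tup k) S : ℝ) ≤
      profile U e (Fin.cons x' y' : Tup k) S + c * ((N.size + 1 : ℕ) : ℝ) := by
    exact_mod_cast h1
  have h2' : (profile U e (Fin.cons x' y' : Tup k) S : ℝ) ≤
      profile U e (Fin.cons x y : Tup k) S + c * ((N.size + 1 : ℕ) : ℝ) := by
    exact_mod_cast h2
  constructor <;> linarith

end Pool.Agent.Lib.MP_7eeb8f_lc
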