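import Mathlib

/-!
Semi-decidable predicates in normal form, enumerations without repetition, truncation.
-/

set_option autoImplicit false
set_option linter.unusedSectionVars false

namespace Pool.Agent.Lib.MP_7eeb8f_lc

open Encodable Denumerable

section SD

variable {α β γ σ : Type} [Primcodable α] [Primcodable β] [Primcodable γ] [Primcodable σ]

theorem computable_decide_eq [DecidableEq β] {f g : α → β} (hf : Computable f)
    (hg : Computable g) : Computable fun a => decide (f a = g a) :=
  (Primrec.eq (α := β)).decide.to_comp.comp hf hg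

theorem computable_decide_le {f g : α → ℕ} (hf : Computable f)
    (hg : Computable g) : Computable fun a => decide (f a ≤ g a) :=
  Primrec.nat_le.decide.to_comp.comp hf hg

theorem computable_decide_lt {f g : α → ℕ} (hf : Computable f)
    (hg : Computable g) : Computable fun a => decide (f a < g a) :=
  Primrec.nat_lt.decide.to_comp.comp hf hg

theorem computable_and {f g : α → Bool} (hf : Computable f)
    (hg : Computable g) : Computable fun a => f a && g a :=
  Primrec.and.to_comp.comp hf hg

/-- A predicate is semi-decidable when it is the projection of a computable one. -/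
def SD (p : α → Prop) : Prop :=
  ∃ f : α → ℕ → Bool, Computable₂ f ∧ ∀ a, p a ↔ ∃ n, f a n = true

theorem SD.of_iff {p q : α → Prop} (hp : SD p) (h : ∀ a, q a ↔ p a) : SD q := by
  obtain ⟨f, hf, hf'⟩ := hp
  exact ⟨f, hf, fun a => (h a).trans (hf' a)⟩

theorem SD.of_computable {p : α → Prop} (f : α → Bool) (hf : Computable f)
    (h : ∀ a, p a ↔ f a = true) : SD p :=
  ⟨fun a _ => f a, (hf.comp Computable.fst).to₂, fun a => by simp [h]⟩

theorem SD.comp {p : β → Prop} (hp : SD p) {g : α → β} (hg : Computable g) :
    SD fun a => p (g a) := by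
  obtain ⟨f, hf, hf'⟩ := hp
  exact ⟨fun a n => f (g a) n, (hf.comp (hg.comp Computable.fst) Computable.snd).to₂,
    fun a => hf' (g a)⟩

theorem SD.and {p q : α → Prop} (hp : SD p) (hq : SD q) : SD fun a => p a ∧ q a := by
  obtain ⟨f, hf, hf'⟩ := hp
  obtain ⟨g, hg, hg'⟩ := hq
  refine ⟨fun a n => f a n.unpair.1 && g a n.unpair.2, ?_, fun a => ?_⟩
  · have h1 : Computable fun x : α × ℕ => f x.1 x.2.unpair.1 :=
      hf.comp Computable.fst (Computable.fst.comp (Computable.unpair.comp Computable.snd))
    have h2 : Computable fun x : α × ℕ => g x.1 x.2.unpair.2 :=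
      hg.comp Computable.fst (Computable.snd.comp (Computable.unpair.comp Computable.snd))
    exact (Primrec.and.to_comp.comp h1 h2)
  · show (p a ∧ q a) ↔ ∃ n : ℕ, (f a n.unpair.1 && g a n.unpair.2) = true
    rw [hf', hg']
    constructor
    · rintro ⟨⟨n, hn⟩, ⟨m, hm⟩⟩
      exact ⟨Nat.pair n m, by simp [hn, hm]⟩
    · rintro ⟨n, hn⟩
      simp only [Bool.and_eq_true] at hn
      exact ⟨⟨_, hn.1⟩, ⟨_, hn.2⟩⟩

theorem SD.exists {p : α × β → Prop} (hp : SD p) : SD fun a => ∃ b, p (a, b) := by
  obtain ⟨f, hf, hf'⟩ := hp
  refine ⟨fun a n => ((decode n.unpair.1 : Option β).map fun b => f (a, b) n.unpair.2).getD false,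
    ?_, fun a => ?_⟩
  · have h1 : Computable fun x : α × ℕ => (decode x.2.unpair.1 : Option β) :=
      Computable.decode.comp (Computable.fst.comp (Computable.unpair.comp Computable.snd))
    have h2 : Computable₂ fun (x : α × ℕ) (b : β) => f (x.1, b) x.2.unpair.2 :=
      hf.comp ((Computable.fst.comp Computable.fst).pair Computable.snd)
        (Computable.snd.comp (Computable.unpair.comp (Computable.snd.comp Computable.fst)))
    exact Computable.option_getD (Computable.option_map h1 h2) (Computable.const false)
  · constructor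
    · rintro ⟨b, hb⟩
      obtain ⟨n, hn⟩ := (hf' _).1 hb
      exact ⟨Nat.pair (encode b) n, by simp [hn]⟩
    · rintro ⟨n, hn⟩
      cases h : (decode n.unpair.1 : Option β) with
      | none => simp [h] at hn
      | some b =>
        simp only [h, Option.map_some, Option.getD_some] at hn
        exact ⟨b, (hf' _).2 ⟨_, hn⟩⟩

theorem SD.trivial : SD fun _ : α => True :=
  SD.of_computable (fun _ => Bool.true) (Computable.const _) (by simp)

/-- finite conjunctions -/
theorem SD.forall_mem_finset {ι : Type} (s : Finset ι) {p : ι → α → Prop} (hp : ∀ i ∈ s, SD (p i)) :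
    SD fun a => ∀ i ∈ s, p i a := by
  classical
  induction s using Finset.induction_on with
  | empty => exact SD.trivial.of_iff (by simp)
  | insert i s hi ih =>
    refine ((hp i (by simp)).and (ih fun j hj => hp j (by simp [hj]))).of_iff fun a => ?_
    simp

theorem SD.forall_fintype {ι : Type} [Fintype ι] {p : ι → α → Prop} (hp : ∀ i, SD (p i)) :
    SD fun a => ∀ i, p i a :=
  (SD.forall_mem_finset Finset.univ fun i _ => hp i).of_iff (by simp)

/-- The graph of a partial recursive function is semi-decidable. -/
theorem SD.graph {f : α →. β} (hf : Partrec f) : SD fun q : α × β => q.2 ∈ f q.1 := by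
  obtain ⟨c, hc⟩ := Nat.Partrec.Code.exists_code.1 hf
  refine ⟨fun q n => decide (Nat.Partrec.Code.evaln n c (encode q.1) = some (encode q.2)), ?_,
    fun q => ?_⟩
  · have h0 : Computable fun x : (α × β) × ℕ => ((x.2, c), encode x.1.1) :=
      (Computable.snd.pair (Computable.const c)).pair
        (Computable.encode.comp (Computable.fst.comp Computable.fst))
    have h1 : Computable fun x : (α × β) × ℕ => Nat.Partrec.Code.evaln x.2 c (encode x.1.1) :=
      Nat.Partrec.Code.primrec_evaln.to_comp.comp h0
    have h2 : Computable fun x : (α × β) × ℕ => some (encode x.1.2) :=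
      Computable.option_some.comp (Computable.encode.comp (Computable.snd.comp Computable.fst))
    exact computable_decide_eq h1 h2
  · have h3 : encode q.2 ∈ c.eval (encode q.1) ↔ q.2 ∈ f q.1 := by
      rw [hc]
      simp only [encodek, Part.coe_some, Part.bind_some, Part.mem_map_iff]
      constructor
      · rintro ⟨b, hb, hb'⟩
        rwa [← encode_injective hb']
      · intro h
        exact ⟨_, h, rfl⟩
    show q.2 ∈ f q.1 ↔ ∃ n, decide (Nat.Partrec.Code.evaln n c (encode q.1) = some (encode q.2)) = true
    rw [← h3, Nat.Partrec.Code.evaln_complete]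
    simp

theorem computable_decide_mem [DecidableEq β] {f : α → β} {g : α → List β} (hf : Computable f)
    (hg : Computable g) : Computable fun a => decide (f a ∈ g a) := by
  have h1 : Computable fun a => (g a).idxOf (f a) := Primrec.list_idxOf.to_comp.comp hf hg
  exact (computable_decide_lt h1 (Computable.list_length.comp hg)).of_eq fun a => by
    simp [List.idxOf_lt_length_iff]

/-- Enumeration without repetition, stage by stage. -/
def enumList [DecidableEq β] (f : α × β → ℕ → Bool) (a : α) : ℕ → List β
  | 0 => []
  | t + 1 => ((decode t.unpair.1 : Option β).map fun b =>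
      bif (f (a, b) t.unpair.2 && !decide (b ∈ enumList f a t)) then enumList f a t ++ [b]
      else enumList f a t).getD (enumList f a t)

theorem computable_enumList [DecidableEq β] {f : α × β → ℕ → Bool} (hf : Computable₂ f) :
    Computable₂ (enumList f) := by
  let g : α × ℕ → ℕ × List β → List β := fun x y =>
    ((decode y.1.unpair.1 : Option β).map fun b =>
      bif (f (x.1, b) y.1.unpair.2 && !decide (b ∈ y.2)) then y.2 ++ [b]
      else y.2).getD y.2
  have hg : Computable₂ g := by
    have h1 : Computable fun z : (α × ℕ) × (ℕ × List β) => (decode z.2.1.unpair.1 : Option β) :=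
      Computable.decode.comp (Computable.fst.comp (Computable.unpair.comp
        (Computable.fst.comp Computable.snd)))
    have h2 : Computable fun w : ((α × ℕ) × (ℕ × List β)) × β =>
        f (w.1.1.1, w.2) w.1.2.1.unpair.2 :=
      hf.comp (((Computable.fst.comp Computable.fst).comp Computable.fst).pair Computable.snd)
        (Computable.snd.comp (Computable.unpair.comp (Computable.fst.comp
          (Computable.snd.comp Computable.fst))))
    have h3 : Computable fun w : ((α × ℕ) × (ℕ × List β)) × β => w.1.2.2 :=
      Computable.snd.comp (Computable.snd.comp Computable.fst)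
    have h4 : Computable fun w : ((α × ℕ) × (ℕ × List β)) × β => !decide (w.2 ∈ w.1.2.2) :=
      Primrec.not.to_comp.comp (computable_decide_mem Computable.snd h3)
    have h5 : Computable fun w : ((α × ℕ) × (ℕ × List β)) × β => w.1.2.2 ++ [w.2] :=
      Computable.list_append.comp h3 (Computable.list_cons.comp Computable.snd
        (Computable.const []))
    have h6 : Computable₂ fun (z : (α × ℕ) × (ℕ × List β)) (b : β) =>
        bif (f (z.1.1, b) z.2.1.unpair.2 && !decide (b ∈ z.2.2)) then z.2.2 ++ [b]
        else z.2.2 :=
      Computable.cond (computable_and h2 h4) h5 h3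
    exact Computable.option_getD (Computable.option_map h1 h6)
      (Computable.snd.comp Computable.snd)
  refine (Computable.nat_rec (f := fun x : α × ℕ => x.2) (g := fun _ => ([] : List β))
    Computable.snd (Computable.const _) hg).of_eq fun x => ?_
  obtain ⟨a, n⟩ := x
  induction n with
  | zero => rfl
  | succ n ih =>
    show g (a, n + 1) (n, _) = enumList f a (n + 1)
    have ih' : (Nat.rec ([] : List β) (fun y IH => g (a, n + 1) (y, IH)) n : List β)
        = enumList f a n := ih
    rw [ih']
    rfl

theorem enumList_succ_eq [DecidableEq β] (f : α × β → ℕ → Bool) (a : α) (t : ℕ) :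
    enumList f a (t + 1) = enumList f a t ∨
    ∃ b, b ∉ enumList f a t ∧ f (a, b) t.unpair.2 = true ∧
      enumList f a (t + 1) = enumList f a t ++ [b] := by
  rw [enumList]
  cases h : (decode t.unpair.1 : Option β) with
  | none => left; simp
  | some b =>
    by_cases hc : (f (a, b) t.unpair.2 && !decide (b ∈ enumList f a t)) = true
    · right
      refine ⟨b, ?_, ?_, ?_⟩
      · simp only [Bool.and_eq_true, Bool.not_eq_true', decide_eq_false_iff_not] at hc
        exact hc.2
      · simp only [Bool.and_eq_true] at hc
        exact hc.1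
      · simp only [Option.map_some, Option.getD_some, hc, cond_true]
    · left
      simp only [Bool.not_eq_true] at hc
      simp only [Option.map_some, Option.getD_some, hc, cond_false]

theorem enumList_nodup [DecidableEq β] (f : α × β → ℕ → Bool) (a : α) (t : ℕ) :
    (enumList f a t).Nodup := by
  induction t with
  | zero => simp [enumList]
  | succ t ih =>
    rcases enumList_succ_eq f a t with h | ⟨b, hb, -, h⟩
    · rwa [h]
    · rw [h]
      refine List.Nodup.append ih (List.nodup_singleton b) ?_
      simpa using hb

theorem enumList_mono [DecidableEq β] (f : α × β → ℕ → Bool) (a : α) {s t : ℕ} (h : s ≤ t) :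
    ∃ l, enumList f a t = enumList f a s ++ l := by
  induction h with
  | refl => exact ⟨[], by simp⟩
  | step _ ih =>
    obtain ⟨l, hl⟩ := ih
    rename_i m _
    rcases enumList_succ_eq f a m with h | ⟨b, -, -, h⟩
    · exact ⟨l, by rw [Nat.succ_eq_add_one, h, hl]⟩
    · exact ⟨l ++ [b], by rw [Nat.succ_eq_add_one, h, hl, List.append_assoc]⟩

theorem enumList_sound [DecidableEq β] {f : α × β → ℕ → Bool} {a : α} {t : ℕ} {b : β}
    (h : b ∈ enumList f a t) : ∃ n, f (a, b) n = true := by
  induction t with
  | zero => simp [enumList] at h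
  | succ t ih =>
    rcases enumList_succ_eq f a t with h' | ⟨b', -, hf, h'⟩
    · rw [h'] at h; exact ih h
    · rw [h'] at h
      simp only [List.mem_append, List.mem_singleton] at h
      rcases h with h | rfl
      · exact ih h
      · exact ⟨_, hf⟩

theorem enumList_complete [DecidableEq β] {f : α × β → ℕ → Bool} {a : α} {b : β} {n : ℕ}
    (h : f (a, b) n = true) : b ∈ enumList f a (Nat.pair (encode b) n + 1) := by
  rw [enumList]
  simp only [Nat.unpair_pair, encodek, Option.map_some, Option.getD_some, h, Bool.true_and]
  by_cases hc : b ∈ enumList f a (Nat.pair (encode b) n)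
  · simp [hc]
  · simp [hc]

/-- Normal form: a semi-decidable binary relation has a uniform computable enumeration without
repetition of its sections. -/
theorem SD.enum [DecidableEq β] {p : α × β → Prop} (hp : SD p) :
    ∃ E : α → ℕ → List β, Computable₂ E ∧ (∀ a t, (E a t).Nodup) ∧
      (∀ a s t, s ≤ t → ∃ l, E a t = E a s ++ l) ∧
      ∀ a b, p (a, b) ↔ ∃ t, b ∈ E a t := by
  obtain ⟨f, hf, hf'⟩ := hp
  refine ⟨enumList f, computable_enumList hf, enumList_nodup f,
    fun a s t h => enumList_mono f a h, fun a b => ?_⟩
  rw [hf']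
  constructor
  · rintro ⟨n, hn⟩
    exact ⟨_, enumList_complete hn⟩
  · rintro ⟨t, ht⟩
    exact enumList_sound ht

/-- The predicate `P` holds for at most `n` elements. -/
def CardLE (P : β → Prop) (n : ℕ) : Prop := ∀ s : Finset β, (∀ b ∈ s, P b) → s.card ≤ n

/-- The predicate `P` holds for at least `n` elements. -/
def CardGE (P : β → Prop) (n : ℕ) : Prop := ∃ s : Finset β, n ≤ s.card ∧ ∀ b ∈ s, P b

omit [Primcodable β] in
theorem CardLE.mono {P Q : β → Prop} {n m : ℕ} (h : CardLE P n) (hQ : ∀ b, Q b → P b)
    (hm : n ≤ m) : CardLE Q m :=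
  fun s hs => (h s fun b hb => hQ b (hs b hb)).trans hm

omit [Primcodable β] in
theorem CardGE.mono {P Q : β → Prop} {n m : ℕ} (h : CardGE P n) (hQ : ∀ b, P b → Q b)
    (hm : m ≤ n) : CardGE Q m := by
  obtain ⟨s, hs, hs'⟩ := h
  exact ⟨s, hm.trans hs, fun b hb => hQ b (hs' b hb)⟩

omit [Primcodable β] in
theorem CardGE.le_of_cardLE {P : β → Prop} {n m : ℕ} (h : CardGE P n) (h' : CardLE P m) :
    n ≤ m := by
  obtain ⟨s, hs, hs'⟩ := h
  exact hs.trans (h' s hs')

/-- finitely many elements of the section are enumerated by a common stage -/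
theorem enum_common {E : α → ℕ → List β} {p : α × β → Prop}
    (hmono : ∀ a s t, s ≤ t → ∃ l, E a t = E a s ++ l)
    (hE : ∀ a b, p (a, b) ↔ ∃ t, b ∈ E a t) {a : α} (s : Finset β) (hs : ∀ b ∈ s, p (a, b)) :
    ∃ t, ∀ b ∈ s, b ∈ E a t := by
  classical
  induction s using Finset.induction_on with
  | empty => exact ⟨0, by simp⟩
  | insert b s _ ih =>
    obtain ⟨t, ht⟩ := ih fun b hb => hs b (by simp [hb])
    obtain ⟨t', ht'⟩ := (hE a b).1 (hs b (by simp))
    refine ⟨max t t', fun c hc => ?_⟩
    rcases Finset.mem_insert.1 hc with rfl | hc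
    · obtain ⟨l, hl⟩ := hmono a t' (max t t') (le_max_right _ _)
      rw [hl]; exact List.mem_append_left _ ht'
    · obtain ⟨l, hl⟩ := hmono a t (max t t') (le_max_left _ _)
      rw [hl]; exact List.mem_append_left _ (ht c hc)

theorem SD.cardGE [DecidableEq β] {p : α × β → Prop} (hp : SD p) {M : α → ℕ} (hM : Computable M) :
    SD fun a => CardGE (fun b => p (a, b)) (M a) := by
  obtain ⟨E, hE, hnd, hmono, hiff⟩ := hp.enum
  refine ⟨fun a t => decide (M a ≤ (E a t).length), ?_, fun a => ?_⟩
  · have h1 : Computable fun x : α × ℕ => (E x.1 x.2).length :=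
      Computable.list_length.comp hE
    exact computable_decide_le (hM.comp Computable.fst) h1
  · constructor
    · rintro ⟨s, hs, hs'⟩
      obtain ⟨t, ht⟩ := enum_common hmono hiff s hs'
      refine ⟨t, ?_⟩
      have h1 : s ⊆ (E a t).toFinset := fun b hb => by simpa using ht b hb
      have h2 := Finset.card_le_card h1
      have h3 := List.toFinset_card_le (E a t)
      simp only [decide_eq_true_eq]
      omega
    · rintro ⟨t, ht⟩
      simp only [decide_eq_true_eq] at ht
      refine ⟨(E a t).toFinset, ?_, fun b hb => (hiff a b).2 ⟨t, by simpa using hb⟩⟩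
      rwa [List.toFinset_card_of_nodup (hnd a t)]

/-- Truncation: keep only the first `T a` enumerated elements of each section. -/
theorem SD.trunc [DecidableEq β] {p : α × β → Prop} (hp : SD p) {T : α → ℕ} (hT : Computable T) :
    ∃ p' : α × β → Prop, SD p' ∧ (∀ a b, p' (a, b) → p (a, b)) ∧
      (∀ a, CardLE (fun b => p' (a, b)) (T a)) ∧
      (∀ a, CardLE (fun b => p (a, b)) (T a) → ∀ b, p (a, b) → p' (a, b)) ∧
      (∀ a, 0 < T a → (∃ b, p (a, b)) → ∃ b, p' (a, b)) := by
  obtain ⟨E, hE, hnd, hmono, hiff⟩ := hp.enum
  refine ⟨fun x => ∃ t, x.2 ∈ (E x.1 t).take (T x.1), ?_, ?_, ?_, ?_, ?_⟩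
  · refine ⟨fun x t => decide (x.2 ∈ (E x.1 t).take (T x.1)), ?_, fun a => by simp⟩
    have h1 : Computable fun x : (α × β) × ℕ => (E x.1.1 x.2).take (T x.1.1) :=
      Primrec.list_take.to_comp.comp (hT.comp (Computable.fst.comp Computable.fst))
        (hE.comp (Computable.fst.comp Computable.fst) Computable.snd)
    exact computable_decide_mem (Computable.snd.comp Computable.fst) h1
  · rintro a b ⟨t, ht⟩
    exact (hiff a b).2 ⟨t, List.mem_of_mem_take ht⟩
  · intro a s hs
    have key : ∃ t, ∀ b ∈ s, b ∈ (E a t).take (T a) := by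
      refine enum_common (p := fun x : α × β => ∃ t, x.2 ∈ (E x.1 t).take (T x.1))
        (E := fun a t => (E a t).take (T a)) ?_ (fun a b => Iff.rfl) s hs
      intro a s t hst
      obtain ⟨l, hl⟩ := hmono a s t hst
      refine ⟨l.take (T a - (E a s).length), ?_⟩
      show (E a t).take (T a) = _
      rw [hl, List.take_append]
    obtain ⟨t, ht⟩ := key
    have h1 : s ⊆ ((E a t).take (T a)).toFinset := fun b hb => by simpa using ht b hb
    have h2 := Finset.card_le_card h1
    have h3 := List.toFinset_card_le ((E a t).take (T a))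
    have h4 : ((E a t).take (T a)).length ≤ T a := by simp
    omega
  · intro a ha b hb
    obtain ⟨t, ht⟩ := (hiff a b).1 hb
    refine ⟨t, ?_⟩
    have h1 : (E a t).toFinset.card ≤ T a :=
      ha _ fun c hc => (hiff a c).2 ⟨t, by simpa using hc⟩
    rw [List.toFinset_card_of_nodup (hnd a t)] at h1
    rwa [List.take_of_length_le h1]
  · rintro a ha ⟨b, hb⟩
    obtain ⟨t, ht⟩ := (hiff a b).1 hb
    obtain ⟨n, hn⟩ : ∃ n, T a = n + 1 := ⟨T a - 1, by omega⟩
    cases h : E a t with
    | nil => rw [h] at ht; simp at ht
    | cons c l => exact ⟨c, t, by simp [h, hn]⟩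

/-- value of a bit string, least significant bit first -/
def val (l : List Bool) : ℕ := l.foldr (fun b n => 2 * n + cond b 1 0) 0

@[simp] theorem val_nil : val [] = 0 := rfl

@[simp] theorem val_cons (b : Bool) (l : List Bool) : val (b :: l) = 2 * val l + cond b 1 0 := rfl

theorem val_lt (l : List Bool) : val l < 2 ^ l.length := by
  induction l with
  | nil => simp
  | cons b l ih =>
    rw [val_cons, List.length_cons, pow_succ]
    cases b <;> simp <;> omega

theorem val_inj {l l' : List Bool} (h : l.length = l'.length) (hv : val l = val l') : l = l' := by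
  induction l generalizing l' with
  | nil =>
    cases l' with
    | nil => rfl
    | cons b l' => simp at h
  | cons b l ih =>
    cases l' with
    | nil => simp at h
    | cons b' l' =>
      simp only [List.length_cons, add_left_inj] at h
      simp only [val_cons] at hv
      have hb : b = b' ∧ val l = val l' := by
        cases b <;> cases b' <;> simp at hv ⊢ <;> omega
      rw [hb.1, ih h hb.2]

theorem val_bits (n : ℕ) : val n.bits = n := by
  induction n using Nat.binaryRec' with
  | zero => simp
  | bit b n h ih =>
    rw [Nat.bits_append_bit n b h, val_cons, ih]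
    cases b <;> simp [Nat.bit]

theorem primrec_val : Primrec val := by
  have h2 : Primrec₂ fun (_ : List Bool) (p : Bool × ℕ) => 2 * p.2 + cond p.1 1 0 :=
    Primrec.nat_add.comp (Primrec.nat_mul.comp (Primrec.const 2) (Primrec.snd.comp Primrec.snd))
      ((Primrec.dom_bool fun b => cond b 1 0).comp (Primrec.fst.comp Primrec.snd))
  exact (Primrec.list_foldr (f := fun l : List Bool => l) Primrec.id (Primrec.const 0) h2).of_eq
    fun l => rfl

/-- A multi-valued matching between bit strings and the section of a semi-decidable relation with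
at least `2 ^ β` elements. -/
theorem SD.matching [DecidableEq β] {p : α × β → Prop} (hp : SD p) :
    ∃ r : (α × ℕ) × (List Bool × β) → Prop, SD r ∧
      (∀ a n x b, r ((a, n), (x, b)) → p (a, b)) ∧
      (∀ a n x, CardGE (fun b => p (a, b)) (2 ^ n) → n ≤ x.length → ∃ b, r ((a, n), (x, b))) ∧
      (∀ a n x, CardLE (fun b => r ((a, n), (x, b))) 1) ∧
      (∀ a n b m, n ≤ m →
        CardLE (fun x : List Bool => x.length = m ∧ r ((a, n), (x, b))) (2 ^ (m - n))) := by
  obtain ⟨E, hE, hnd, hmono, hiff⟩ := hp.enum
  have hget : ∀ (a : α) (s t i : ℕ) (b : β), s ≤ t → (E a s)[i]? = some b → (E a t)[i]? = some b := by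
    intro a s t i b hst h
    obtain ⟨l, hl⟩ := hmono a s t hst
    rw [hl, List.getElem?_append_left]
    · exact h
    · exact (List.getElem?_eq_some_iff.1 h).1
  refine ⟨fun y => ∃ t, (E y.1.1 t)[val (y.2.1.take y.1.2)]? = some y.2.2, ?_, ?_, ?_, ?_, ?_⟩
  · refine ⟨fun y t => decide ((E y.1.1 t)[val (y.2.1.take y.1.2)]? = some y.2.2), ?_,
      fun a => by simp⟩
    have h1 : Computable fun z : ((α × ℕ) × (List Bool × β)) × ℕ => E z.1.1.1 z.2 :=
      hE.comp (Computable.fst.comp (Computable.fst.comp Computable.fst)) Computable.snd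
    have h2 : Computable fun z : ((α × ℕ) × (List Bool × β)) × ℕ =>
        val (z.1.2.1.take z.1.1.2) :=
      primrec_val.to_comp.comp (Primrec.list_take.to_comp.comp
        (Computable.snd.comp (Computable.fst.comp Computable.fst))
        (Computable.fst.comp (Computable.snd.comp Computable.fst)))
    exact computable_decide_eq (Computable.list_getElem?.comp h1 h2)
      (Computable.option_some.comp (Computable.snd.comp (Computable.snd.comp Computable.fst)))
  · rintro a n x b ⟨t, ht⟩
    exact (hiff a b).2 ⟨t, List.mem_of_getElem? ht⟩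
  · rintro a n x ⟨s, hs, hs'⟩ hx
    obtain ⟨t, ht⟩ := enum_common hmono hiff s hs'
    have h1 : s ⊆ (E a t).toFinset := fun b hb => by simpa using ht b hb
    have h2 := Finset.card_le_card h1
    have h3 := List.toFinset_card_le (E a t)
    have h4 := val_lt (x.take n)
    rw [List.length_take, min_eq_left hx] at h4
    have h5 : val (x.take n) < (E a t).length := by omega
    exact ⟨(E a t)[val (x.take n)], t, List.getElem?_eq_getElem h5⟩
  · intro a n x s hs
    rw [Finset.card_le_one]
    intro b hb c hc
    obtain ⟨t, ht⟩ := hs b hb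
    obtain ⟨t', ht'⟩ := hs c hc
    have h1 := hget a t (max t t') _ _ (le_max_left _ _) ht
    have h2 := hget a t' (max t t') _ _ (le_max_right _ _) ht'
    simp only at h1 h2
    rw [h1] at h2
    exact Option.some.inj h2
  · intro a n b m hnm s hs
    have key : ∀ x ∈ s, ∀ x' ∈ s, x.take n = x'.take n := by
      intro x hx x' hx'
      obtain ⟨hlx, t, ht⟩ := hs x hx
      obtain ⟨hlx', t', ht'⟩ := hs x' hx'
      have h1 := hget a t (max t t') _ _ (le_max_left _ _) ht
      have h2 := hget a t' (max t t') _ _ (le_max_right _ _) ht'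
      simp only at h1 h2
      have h3 : val (x.take n) = val (x'.take n) := by
        obtain ⟨hl1, he1⟩ := List.getElem?_eq_some_iff.1 h1
        obtain ⟨hl2, he2⟩ := List.getElem?_eq_some_iff.1 h2
        exact (List.Nodup.getElem_inj_iff (hnd a (max t t'))).1 (he1.trans he2.symm)
      exact val_inj (by simp [hlx, hlx']) h3
    have hinj : Set.InjOn (fun x : List Bool => val (x.drop n)) (s : Set (List Bool)) := by
      intro x hx x' hx' hv
      have hx : x ∈ s := hx
      have hx' : x' ∈ s := hx'
      have h1 := key x hx x' hx'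
      have h2 : x.drop n = x'.drop n := by
        refine val_inj ?_ hv
        simp [(hs x hx).1, (hs x' hx').1]
      rw [← List.take_append_drop n x, ← List.take_append_drop n x', h1, h2]
    have h1 : (s.image fun x : List Bool => val (x.drop n)) ⊆ Finset.range (2 ^ (m - n)) := by
      intro v hv
      rw [Finset.mem_image] at hv
      obtain ⟨x, hx, rfl⟩ := hv
      rw [Finset.mem_range]
      have h2 := val_lt (x.drop n)
      rwa [List.length_drop, (hs x hx).1] at h2
    have h2 := Finset.card_le_card h1
    rw [Finset.card_image_of_injOn hinj, Finset.card_range] at h2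
    exact h2

end SD

end Pool.Agent.Lib.MP_7eeb8f_lc
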