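import Pool.Agent.Lib.MP_7eeb8f_lc.Defs
import Pool.Agent.Lib.MP_7eeb8f_lc.SD

/-!
Calculus of plain complexity for encodable objects.
-/

set_option autoImplicit false
set_option linter.unusedSectionVars false

namespace Pool.Agent.Lib.MP_7eeb8f_lc

open Encodable Denumerable

variable {α β γ σ : Type} [Primcodable α] [Primcodable β] [Primcodable γ] [Primcodable σ]

/-- one step of the extraction of binary digits -/
def bitsStep (s : List Bool × ℕ) : List Bool × ℕ :=
  if s.2 = 0 then s else (s.1 ++ [s.2.bodd], s.2.div2)

theorem bitsStep_iterate (k : ℕ) : ∀ (l : List Bool) (n : ℕ), n ≤ k →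
    (bitsStep^[k] (l, n)).1 = l ++ n.bits := by
  induction k with
  | zero =>
    intro l n hn
    obtain rfl : n = 0 := by omega
    simp
  | succ k ih =>
    intro l n hn
    rw [Function.iterate_succ_apply]
    by_cases h0 : n = 0
    · subst h0
      have h1 : bitsStep (l, 0) = (l, 0) := by simp [bitsStep]
      rw [h1, ih l 0 (by omega)]
    · have h1 : bitsStep (l, n) = (l ++ [n.bodd], n.div2) := by simp [bitsStep, h0]
      have h2 : n.div2 ≤ k := by
        rw [Nat.div2_val]; omega
      rw [h1, ih _ _ h2]
      have h3 : n.bits = n.bodd :: n.div2.bits := by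
        conv_lhs => rw [← Nat.bit_bodd_div2 n]
        rw [Nat.bits_append_bit]
        intro h4
        by_contra h5
        simp only [Bool.not_eq_true] at h5
        apply h0
        rw [← Nat.bit_bodd_div2 n, h4, h5]
        rfl
      rw [h3, List.append_assoc]
      rfl

theorem primrec_bits : Primrec Nat.bits := by
  have h1 : Primrec bitsStep := by
    have h2 : Primrec fun s : List Bool × ℕ => (s.1 ++ [s.2.bodd], s.2.div2) :=
      (Primrec.list_append.comp Primrec.fst (Primrec.list_cons.comp
        (Primrec.nat_bodd.comp Primrec.snd) (Primrec.const []))).pair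
        (Primrec.nat_div2.comp Primrec.snd)
    exact Primrec.ite (Primrec.eq.comp Primrec.snd (Primrec.const 0)) Primrec.id h2
  have h3 : Primrec fun n : ℕ => (bitsStep^[n] (([] : List Bool), n)).1 :=
    Primrec.fst.comp (Primrec.nat_iterate (f := fun n : ℕ => n)
      (g := fun n : ℕ => (([] : List Bool), n)) (h := fun _ s => bitsStep s)
      Primrec.id ((Primrec.const []).pair Primrec.id) (h1.comp Primrec.snd).to₂)
  exact h3.of_eq fun n => by rw [bitsStep_iterate n [] n le_rfl]; simp

/-- the string coding an object -/
def enc (a : α) : List Bool := (encode a).bits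

/-- the object coded by a string -/
def dec (s : List Bool) : Option α := decode (val s)

/-- complexity of an object -/
noncomputable def K (U : List Bool →. List Bool) (a : α) : ℕ := kolmogorov U (enc a)

theorem dec_enc (a : α) : (dec (enc a) : Option α) = some a := by
  rw [dec, enc, val_bits, encodek]

theorem enc_injective : Function.Injective (enc : α → List Bool) := by
  intro a b h
  have h1 := dec_enc a
  rw [h, dec_enc b] at h1
  exact (Option.some.inj h1).symm

theorem computable_enc : Computable (enc : α → List Bool) :=
  primrec_bits.to_comp.comp Computable.encode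

theorem computable_dec : Computable (dec : List Bool → Option α) :=
  Computable.decode.comp primrec_val.to_comp

variable {U : List Bool →. List Bool} (hU : IsOptimal U)

include hU

theorem exists_program (x : List Bool) : ∃ p : List Bool, x ∈ U p ∧ p.length = kolmogorov U x := by
  have hne : {n : ℕ | ∃ p : List Bool, p.length = n ∧ x ∈ U p}.Nonempty := by
    obtain ⟨c, hc⟩ := hU.optimal (fun p => Part.some p) Computable.id.partrec
    obtain ⟨q, hq, -⟩ := hc x x (Part.mem_some x)
    exact ⟨q.length, q, rfl, hq⟩
  obtain ⟨p, hp, hp'⟩ := Nat.sInf_mem hne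
  exact ⟨p, hp', hp⟩

omit hU in
theorem kolmogorov_le {p x : List Bool} (h : x ∈ U p) : kolmogorov U x ≤ p.length :=
  Nat.sInf_le ⟨p, rfl, h⟩

theorem kolmogorov_le_iff (x : List Bool) (n : ℕ) :
    kolmogorov U x ≤ n ↔ ∃ p : List Bool, p.length ≤ n ∧ x ∈ U p := by
  constructor
  · intro h
    obtain ⟨p, hp, hp'⟩ := exists_program hU x
    exact ⟨p, by omega, hp⟩
  · rintro ⟨p, hp, hp'⟩
    exact (kolmogorov_le hp').trans hp

/-- partial recursive functions do not increase complexity -/
theorem K_le_of_partrec {f : α →. β} (hf : Partrec f) :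
    ∃ c : ℕ, ∀ a b, b ∈ f a → K U b ≤ K U a + c := by
  let D : List Bool →. List Bool := fun p => (U p).bind fun s =>
    ((dec s : Option α) : Part α).bind fun a => (f a).map enc
  have hD : Partrec D := by
    have h1 : Partrec₂ fun (_ : List Bool) (s : List Bool) =>
        ((dec s : Option α) : Part α).bind fun a => (f a).map enc := by
      have h2 : Computable fun x : List Bool × List Bool => (dec x.2 : Option α) :=
        computable_dec.comp Computable.snd
      have h3 : Partrec₂ fun (_ : List Bool × List Bool) (a : α) => (f a).map enc :=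
        (hf.comp Computable.snd).map (computable_enc.comp Computable.snd).to₂
      exact h2.ofOption.bind h3
    exact hU.partrec.bind h1
  obtain ⟨c, hc⟩ := hU.optimal D hD
  refine ⟨c, fun a b hb => ?_⟩
  obtain ⟨p, hp, hp'⟩ := exists_program hU (enc a)
  have h1 : enc b ∈ D p := by
    refine Part.mem_bind_iff.2 ⟨enc a, hp, Part.mem_bind_iff.2 ⟨a, ?_, ?_⟩⟩
    · rw [dec_enc]; exact Part.mem_some a
    · exact Part.mem_map _ hb
  obtain ⟨q, hq, hq'⟩ := hc p _ h1
  have := kolmogorov_le hq
  simp only [K]
  omega

theorem K_le_of_computable {f : α → β} (hf : Computable f) :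
    ∃ c : ℕ, ∀ a, K U (f a) ≤ K U a + c := by
  obtain ⟨c, hc⟩ := K_le_of_partrec hU hf.partrec
  exact ⟨c, fun a => hc a _ (Part.mem_some _)⟩

/-- natural numbers -/
theorem K_nat : ∃ c : ℕ, ∀ n : ℕ, K U n ≤ n.size + c := by
  obtain ⟨c, hc⟩ := hU.optimal (fun p => Part.some (enc (val p)))
    (computable_enc.comp primrec_val.to_comp).partrec
  refine ⟨c, fun n => ?_⟩
  obtain ⟨q, hq, hq'⟩ := hc n.bits (enc n) (by rw [val_bits]; exact Part.mem_some _)
  have := kolmogorov_le hq
  have h2 := Nat.size_eq_bits_len n
  simp only [K]
  omega

/-- strings: the complexity as an object and as a string agree up to a constant -/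
theorem K_string_le : ∃ c : ℕ, ∀ x : List Bool, K U x ≤ kolmogorov U x + c := by
  obtain ⟨c, hc⟩ := hU.optimal (fun p => (U p).map enc)
    (hU.partrec.map (computable_enc.comp Computable.snd).to₂)
  refine ⟨c, fun x => ?_⟩
  obtain ⟨p, hp, hp'⟩ := exists_program hU x
  obtain ⟨q, hq, hq'⟩ := hc p _ (Part.mem_map _ hp)
  have := kolmogorov_le hq
  simp only [K]
  omega

theorem kolmogorov_le_K : ∃ c : ℕ, ∀ x : List Bool, kolmogorov U x ≤ K U x + c := by
  obtain ⟨c, hc⟩ := hU.optimal (fun p => (U p).bind fun s => ((dec s : Option (List Bool)) : Part _))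
    (hU.partrec.bind (show Partrec₂ fun (_ : List Bool) (s : List Bool) =>
      ((dec s : Option (List Bool)) : Part (List Bool)) from
        (computable_dec.comp Computable.snd).ofOption))
  refine ⟨c, fun x => ?_⟩
  obtain ⟨p, hp, hp'⟩ := exists_program hU (enc x)
  obtain ⟨q, hq, hq'⟩ := hc p x (Part.mem_bind_iff.2 ⟨enc x, hp, by
    rw [dec_enc]; exact Part.mem_some x⟩)
  have := kolmogorov_le hq
  simp only [K]
  omega

theorem kolmogorov_length : ∃ c : ℕ, ∀ x : List Bool, kolmogorov U x ≤ x.length + c := by
  obtain ⟨c, hc⟩ := hU.optimal (fun p => Part.some p) Computable.id.partrec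
  refine ⟨c, fun x => ?_⟩
  obtain ⟨q, hq, hq'⟩ := hc x x (Part.mem_some _)
  have := kolmogorov_le hq
  omega

theorem K_length : ∃ c : ℕ, ∀ x : List Bool, K U x ≤ x.length + c := by
  obtain ⟨c, hc⟩ := kolmogorov_length hU
  obtain ⟨c', hc'⟩ := K_string_le hU
  refine ⟨c + c', fun x => ?_⟩
  have := hc x
  have := hc' x
  omega

omit hU in
/-- parsing of a self-delimited pair of programs -/
def parse (s : List Bool) : List Bool × List Bool :=
  let k := (s.takeWhile id).length
  let s1 := s.drop (k + 1)
  let n := val (s1.take k)
  let s2 := s1.drop k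
  (s2.take n, s2.drop n)

omit hU in
theorem parse_spec (p q : List Bool) :
    parse (List.replicate p.length.size true ++ (false :: (p.length.bits ++ (p ++ q)))) = (p, q) := by
  have hk : ((List.replicate p.length.size true ++
      (false :: (p.length.bits ++ (p ++ q)))).takeWhile id).length = p.length.size := by
    rw [List.takeWhile_append_of_pos]
    · simp
    · intro a ha
      simp only [List.mem_replicate] at ha
      simp [ha.2]
  unfold parse
  simp only [hk]
  have h1 : (List.replicate p.length.size true ++
      (false :: (p.length.bits ++ (p ++ q)))).drop (p.length.size + 1)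
      = p.length.bits ++ (p ++ q) := by
    rw [List.drop_append]
    simp
  rw [h1]
  have h2 : (p.length.bits ++ (p ++ q)).take p.length.size = p.length.bits := by
    rw [← Nat.size_eq_bits_len, List.take_left]
  have h3 : (p.length.bits ++ (p ++ q)).drop p.length.size = p ++ q := by
    rw [← Nat.size_eq_bits_len, List.drop_left]
  rw [h2, h3, val_bits, List.take_left, List.drop_left]

omit hU in
theorem primrec_parse : Primrec parse := by
  have hk : Primrec fun s : List Bool => (s.takeWhile id).length :=
    Primrec.list_length.comp (Primrec.list_takeWhile (p := id) Primrec.id)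
  have h1 : Primrec fun s : List Bool => s.drop ((s.takeWhile id).length + 1) :=
    Primrec.list_drop.comp (Primrec.succ.comp hk) Primrec.id
  have h2 : Primrec fun s : List Bool =>
      val ((s.drop ((s.takeWhile id).length + 1)).take (s.takeWhile id).length) :=
    primrec_val.comp (Primrec.list_take.comp hk h1)
  have h3 : Primrec fun s : List Bool =>
      (s.drop ((s.takeWhile id).length + 1)).drop (s.takeWhile id).length :=
    Primrec.list_drop.comp hk h1
  exact (Primrec.list_take.comp h2 h3).pair (Primrec.list_drop.comp h2 h3)

/-- pairs -/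
theorem K_pair : ∃ c : ℕ, ∀ (a : α) (b : β),
    K U (a, b) ≤ K U a + K U b + 2 * (K U a).size + c := by
  let D : List Bool →. List Bool := fun p => (U (parse p).1).bind fun s =>
    (U (parse p).2).bind fun t => ((dec s : Option α) : Part α).bind fun a =>
      ((dec t : Option β) : Part β).map fun b => enc (a, b)
  have hD : Partrec D := by
    have h1 : Partrec fun p : List Bool => U (parse p).1 :=
      hU.partrec.comp (Computable.fst.comp primrec_parse.to_comp)
    have h2 : Partrec fun x : List Bool × List Bool => U (parse x.1).2 :=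
      hU.partrec.comp (Computable.snd.comp (primrec_parse.to_comp.comp Computable.fst))
    have h3 : Partrec fun x : (List Bool × List Bool) × List Bool =>
        ((dec x.1.2 : Option α) : Part α) :=
      (computable_dec.comp (Computable.snd.comp Computable.fst)).ofOption
    have h4 : Partrec fun x : ((List Bool × List Bool) × List Bool) × α =>
        ((dec x.1.2 : Option β) : Part β) :=
      (computable_dec.comp (Computable.snd.comp Computable.fst)).ofOption
    have h5 : Computable₂ fun (x : ((List Bool × List Bool) × List Bool) × α) (b : β) =>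
        enc (x.2, b) :=
      computable_enc.comp ((Computable.snd.comp Computable.fst).pair Computable.snd)
    have h6 : Partrec₂ fun (x : (List Bool × List Bool) × List Bool) (a : α) =>
        ((dec x.2 : Option β) : Part β).map fun b => enc (a, b) := h4.map h5
    have h7 : Partrec₂ fun (x : List Bool × List Bool) (t : List Bool) =>
        ((dec x.2 : Option α) : Part α).bind fun a =>
          ((dec t : Option β) : Part β).map fun b => enc (a, b) := h3.bind h6
    have h8 : Partrec₂ fun (p : List Bool) (s : List Bool) => (U (parse p).2).bind fun t =>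
        ((dec s : Option α) : Part α).bind fun a =>
          ((dec t : Option β) : Part β).map fun b => enc (a, b) := h2.bind h7
    exact h1.bind h8
  obtain ⟨c, hc⟩ := hU.optimal D hD
  refine ⟨c + 1, fun a b => ?_⟩
  obtain ⟨p, hp, hp'⟩ := exists_program hU (enc a)
  obtain ⟨q, hq, hq'⟩ := exists_program hU (enc b)
  have h1 : enc (a, b) ∈
      D (List.replicate p.length.size true ++ (false :: (p.length.bits ++ (p ++ q)))) := by
    refine Part.mem_bind_iff.2 ⟨enc a, ?_, Part.mem_bind_iff.2 ⟨enc b, ?_,
      Part.mem_bind_iff.2 ⟨a, ?_, ?_⟩⟩⟩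
    · rw [parse_spec]; exact hp
    · rw [parse_spec]; exact hq
    · rw [dec_enc]; exact Part.mem_some a
    · exact (Part.mem_map_iff _).2 ⟨b, by rw [dec_enc]; exact Part.mem_some b, rfl⟩
  obtain ⟨r, hr, hr'⟩ := hc _ _ h1
  have h2 := kolmogorov_le hr
  have h3 : (List.replicate p.length.size true ++
      (false :: (p.length.bits ++ (p ++ q)))).length
      = 2 * p.length.size + p.length + q.length + 1 := by
    simp only [List.length_append, List.length_replicate, List.length_cons,
      Nat.size_eq_bits_len]
    omega
  rw [h3] at hr'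
  simp only [K]
  rw [hp'] at hr'
  omega

omit hU in
theorem cardLE_of_injOn {P : β → Prop} {n : ℕ} (f : β → ℕ) (hf : ∀ b, P b → f b < n)
    (hinj : ∀ b b', P b → P b' → f b = f b' → b = b') : CardLE P n := by
  intro s hs
  have h1 : s.image f ⊆ Finset.range n := by
    intro v hv
    rw [Finset.mem_image] at hv
    obtain ⟨x, hx, rfl⟩ := hv
    exact Finset.mem_range.2 (hf x (hs x hx))
  have h2 := Finset.card_le_card h1
  rw [Finset.card_image_of_injOn, Finset.card_range] at h2
  · exact h2
  · intro x hx y hy hxy
    exact hinj x y (hs x hx) (hs y hy) hxy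

/-- counting -/
theorem cardLE_K (n : ℕ) : CardLE (fun a : α => K U a ≤ n) (2 ^ (n + 1)) := by
  classical
  choose prog hprog hlen using fun a : α => exists_program hU (enc a)
  refine cardLE_of_injOn (fun a => val (prog a ++ [true])) ?_ ?_
  · intro a ha
    have h1 := val_lt (prog a ++ [true])
    refine h1.trans_le (Nat.pow_le_pow_right (by norm_num) ?_)
    rw [List.length_append, hlen]
    simp only [K] at ha
    simp only [List.length_cons, List.length_nil]
    omega
  · intro a b _ _ h
    have hval : ∀ l : List Bool, 2 ^ l.length ≤ val (l ++ [true]) := by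
      intro l
      induction l with
      | nil => simp
      | cons b l ih =>
        rw [List.cons_append, val_cons, List.length_cons, pow_succ]
        omega
    have hl : (prog a).length = (prog b).length := by
      have h1 := hval (prog a)
      have h2 := hval (prog b)
      have h3 := val_lt (prog a ++ [true])
      have h4 := val_lt (prog b ++ [true])
      simp only [List.length_append, List.length_cons, List.length_nil, zero_add] at h3 h4
      by_contra hne
      rcases Nat.lt_or_gt_of_ne hne with hlt | hlt
      · have := Nat.pow_le_pow_right (show 0 < 2 by norm_num) (Nat.succ_le_of_lt hlt)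
        simp only [Nat.succ_eq_add_one] at this
        omega
      · have := Nat.pow_le_pow_right (show 0 < 2 by norm_num) (Nat.succ_le_of_lt hlt)
        simp only [Nat.succ_eq_add_one] at this
        omega
    have h5 : prog a ++ [true] = prog b ++ [true] := val_inj (by simp [hl]) h
    have h6 : prog a = prog b := List.append_cancel_right h5
    have h7 := hprog a
    rw [h6] at h7
    exact enc_injective (Part.mem_unique h7 (hprog b))

/-- upper semicomputability -/
theorem SD_K : SD fun x : α × ℕ => K U x.1 ≤ x.2 := by
  have h1 : SD fun y : (α × ℕ) × List Bool => y.2.length ≤ y.1.2 ∧ enc y.1.1 ∈ U y.2 := by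
    refine SD.and ?_ ?_
    · exact SD.of_computable (fun y : (α × ℕ) × List Bool => decide (y.2.length ≤ y.1.2))
        (computable_decide_le (Computable.list_length.comp Computable.snd)
          (Computable.snd.comp Computable.fst)) (fun y => by simp)
    · exact (SD.graph hU.partrec).comp (g := fun y : (α × ℕ) × List Bool => (y.2, enc y.1.1))
        (Computable.snd.pair (computable_enc.comp (Computable.fst.comp Computable.fst)))
  exact h1.exists.of_iff fun x => kolmogorov_le_iff hU _ _

/-- The index lemma: a member of a small semi-decidable section has small complexity. -/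
theorem K_index [DecidableEq β] {p : α × β → Prop} (hp : SD p) :
    ∃ c : ℕ, ∀ a b M, p (a, b) → CardLE (fun b => p (a, b)) M →
      K U b ≤ K U a + M.size + 2 * (K U a).size + c := by
  obtain ⟨E, hE, hnd, hmono, hiff⟩ := hp.enum
  let f : α × ℕ →. β := fun x => Nat.rfindOpt fun t => (E x.1 t)[x.2]?
  have hf : Partrec f := by
    refine Partrec.rfindOpt ?_
    exact Computable.list_getElem?.comp
      (hE.comp (Computable.fst.comp Computable.fst) Computable.snd)
      (Computable.snd.comp Computable.fst)
  obtain ⟨c1, h1⟩ := K_le_of_partrec hU hf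
  obtain ⟨c2, h2⟩ := K_pair (α := α) (β := ℕ) hU
  obtain ⟨c3, h3⟩ := K_nat hU
  refine ⟨c1 + c2 + c3, fun a b M hb hM => ?_⟩
  obtain ⟨t, ht⟩ := (hiff a b).1 hb
  obtain ⟨i, hi, hi'⟩ := List.mem_iff_getElem.1 ht
  have hget : ∀ (s t : ℕ) (b : β), s ≤ t → (E a s)[i]? = some b → (E a t)[i]? = some b := by
    intro s t b hst h
    obtain ⟨l, hl⟩ := hmono a s t hst
    rw [hl, List.getElem?_append_left]
    · exact h
    · exact (List.getElem?_eq_some_iff.1 h).1
  have hmem : b ∈ f (a, i) := by
    have hdom : (f (a, i)).Dom := by
      rw [Nat.rfindOpt_dom]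
      exact ⟨t, b, by rw [Option.mem_def, List.getElem?_eq_some_iff]; exact ⟨hi, hi'⟩⟩
    obtain ⟨b', hb'⟩ := Part.dom_iff_mem.1 hdom
    obtain ⟨t', ht'⟩ := Nat.rfindOpt_spec hb'
    have e1 := hget t' (max t t') b' (le_max_right _ _) (Option.mem_def.1 ht')
    have e2 := hget t (max t t') b (le_max_left _ _)
      (List.getElem?_eq_some_iff.2 ⟨hi, hi'⟩)
    rw [e1] at e2
    rw [← Option.some.inj e2]
    exact hb'
  have hiM : i < M := by
    have h4 : (E a t).toFinset.card ≤ M :=
      hM _ fun c hc => (hiff a c).2 ⟨t, by simpa using hc⟩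
    rw [List.toFinset_card_of_nodup (hnd a t)] at h4
    omega
  have h4 := h1 (a, i) b hmem
  have h5 := h2 a i
  have h6 := h3 i
  have h7 : i.size ≤ M.size := Nat.size_le_size hiM.le
  omega

end Pool.Agent.Lib.MP_7eeb8f_lc
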