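import Pool.Agent.Lib.MP_7eeb8f_lc.Stages

/-!
The main theorem for incompressible strings.
-/

set_option autoImplicit false
set_option linter.unusedSectionVars false

namespace Pool.Agent.Lib.MP_7eeb8f_lc

open Encodable Denumerable

/-- `f` is bounded by a multiple of `L`. -/
def Sm {ι : Type} (L f : ι → ℕ) : Prop := ∃ c : ℕ, ∀ i, f i ≤ c * L i

/-- The data of the problem for incompressible strings. -/
structure Inst (U : List Bool →. List Bool) (k c0 : ℕ) where
  N : ℕ
  m : ℕ
  p : List Bool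
  p' : List Bool
  y : Fin k → List Bool
  hp : p.length = m
  hp' : p'.length = m
  hm : m ≤ N
  hN : ∀ S, K U (proj S (Fin.cons p y : Tup k)) ≤ N
  hK : m ≤ K U p + c0 * (N.size + 1)
  hK' : m ≤ K U p' + c0 * (N.size + 1)

variable {U : List Bool →. List Bool} (hU : IsOptimal U)

include hU

set_option maxHeartbeats 4000000 in
theorem main_incompressible (k c0 : ℕ) : ∃ c : ℕ, ∀ i : Inst U k c0,
    ∃ y' : Fin k → List Bool, ∀ S : Finset (Fin (k + 1)),
      K U (proj S (Fin.cons i.p i.y : Tup k)) ≤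
        K U (proj S (Fin.cons i.p' y' : Tup k)) + c * (i.N.size + 1) ∧
      K U (proj S (Fin.cons i.p' y' : Tup k)) ≤
        K U (proj S (Fin.cons i.p i.y : Tup k)) + c * (i.N.size + 1) := by
  classical
  let L : Inst U k c0 → ℕ := fun i => i.N.size + 1
  have hL : ∀ i, L i = i.N.size + 1 := fun i => rfl
  have hL1 : ∀ i, 1 ≤ L i := fun i => by rw [hL]; omega
  let z : Inst U k c0 → Tup k := fun i => Fin.cons i.p i.y
  let h : Inst U k c0 → Finset (Fin (k + 1)) → ℕ := fun i S => K U (proj S (z i))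
  have hhN : ∀ i S, h i S ≤ i.N := fun i S => i.hN S
  -- basic bounds
  have sm_size : ∀ (d : ℕ) (f : Inst U k c0 → ℕ), (∀ i, f i ≤ i.N + d) →
      Sm L fun i => (f i).size := by
    intro d f hf
    refine ⟨1 + d.size, fun i => ?_⟩
    have h1 := (Nat.size_le_size (hf i)).trans (size_add_le _ _)
    have h2 := hL1 i
    calc (f i).size ≤ i.N.size + d.size := h1
      _ ≤ 1 * L i + d.size * L i := by
        rw [one_mul]
        exact Nat.add_le_add (by rw [hL]; omega) (Nat.le_mul_of_pos_right _ h2)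
      _ = _ := by ring
  have sm_nat : ∀ (d : ℕ) (f : Inst U k c0 → ℕ), (∀ i, f i ≤ i.N + d) →
      Sm L fun i => K U (f i) := by
    intro d f hf
    obtain ⟨c, hc⟩ := sm_size d f hf
    obtain ⟨c', hc'⟩ := K_nat hU
    refine ⟨c + c', fun i => ?_⟩
    beta_reduce at hc ⊢
    have h1 := hc i
    have h2 := hc' (f i)
    have h3 : c' ≤ c' * L i := Nat.le_mul_of_pos_right _ (hL1 i)
    rw [add_mul]
    omega
  have sm_pair : ∀ {α β : Type} [Primcodable α] [Primcodable β] (f : Inst U k c0 → α)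
      (g : Inst U k c0 → β), (Sm L fun i => K U (f i)) → (Sm L fun i => K U (g i)) →
      Sm L fun i => K U (f i, g i) := by
    intro α β _ _ f g hf hg
    obtain ⟨c, hc⟩ := hf
    obtain ⟨c', hc'⟩ := hg
    obtain ⟨c'', hc''⟩ := K_pair (α := α) (β := β) hU
    refine ⟨3 * c + c' + c'', fun i => ?_⟩
    beta_reduce at hc hc' ⊢
    have h1 := hc i
    have h2 := hc' i
    have h3 := hc'' (f i) (g i)
    have h4 := size_le_self (K U (f i))
    have h5 : c'' ≤ c'' * L i := Nat.le_mul_of_pos_right _ (hL1 i)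
    rw [add_mul, add_mul, mul_assoc]
    omega
  have sm_tab : ∀ (d : ℕ) (f : Inst U k c0 → Finset (Fin (k + 1)) → ℕ),
      (∀ i S, f i S ≤ i.N + d) → Sm L fun i => K U (tab (f i)) := by
    intro d f hf
    obtain ⟨c, hc⟩ := K_list_nat hU
      (Finset.univ : Finset (Finset (Fin (k + 1)))).toList.length
    refine ⟨c * (1 + d.size), fun i => ?_⟩
    have h1 := hc (tab (f i)) (i.N + d) (by simp [tab]) (by
      intro x hx
      obtain ⟨S, -, rfl⟩ := List.mem_map.1 hx
      exact hf i S)
    have h2 : (i.N + d).size + 1 ≤ (1 + d.size) * L i := by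
      have h3 := size_add_le i.N d
      have h4 : d.size ≤ d.size * L i := Nat.le_mul_of_pos_right _ (hL1 i)
      rw [add_mul, one_mul]
      have h5 := hL i
      omega
    rw [mul_assoc]
    exact h1.trans (Nat.mul_le_mul le_rfl h2)
  -- first parameters
  have hθ1 : Sm L fun i => K U (i.m, tab (h i)) :=
    sm_pair _ _ (sm_nat 0 _ fun i => i.hm) (sm_tab 0 _ hhN)
  obtain ⟨cs1, hs1⟩ := stage1 hU k
  choose j hj1 hj2 hj3 using fun i : Inst U k c0 =>
    hs1 i.m (h i) (z i) (by simpa [z] using i.hp) (fun S => rfl)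
  have hj4 : ∀ i S, j i S ≤ i.N + cs1 := fun i S =>
    (hj3 i S).trans (Nat.add_le_add_right (hhN i _) _)
  let mS : Inst U k c0 → Finset (Fin (k + 1)) → ℕ := fun i S => j i S + 1
  let θ : Inst U k c0 → (ℕ × List ℕ) × List ℕ := fun i => ((i.m, tab (h i)), tab (mS i))
  have hθ : Sm L fun i => K U (θ i) :=
    sm_pair _ _ hθ1 (sm_tab (cs1 + 1) mS fun i S => Nat.succ_le_succ (hj4 i S))
  -- uniform form of the fibre bounds
  obtain ⟨c2, D2⟩ : ∃ c : ℕ, ∀ i S, h i S + mS i S ≤ h i Finset.univ + c * L i := by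
    obtain ⟨c, hc⟩ := hθ1
    have h1 : ∀ S, Sm L fun i => (j i S).size := fun S => sm_size cs1 _ fun i => hj4 i S
    choose e he using h1
    beta_reduce at hc he
    refine ⟨cs1 * (c + (∑ S, e S) + 1) + 1, fun i S => ?_⟩
    have h2 := hj2 i S
    have h3 := hc i
    have h4 := he S i
    have h5 : e S * L i ≤ (∑ S, e S) * L i := Nat.mul_le_mul
      (Finset.single_le_sum (fun _ _ => Nat.zero_le _) (Finset.mem_univ S)) le_rfl
    have h6 := hL1 i
    have h7 : K U (i.m, tab (h i)) + (j i S).size + 1 ≤ (c + (∑ S, e S) + 1) * L i := by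
      rw [add_mul, add_mul, one_mul]; omega
    have h8 := Nat.mul_le_mul (le_refl cs1) h7
    rw [add_mul, one_mul, mul_assoc]
    show h i S + (j i S + 1) ≤ _
    omega
  obtain ⟨A', hAsd, hArel, hAle, hAmem⟩ := stage2 hU k
  have hfib : ∀ i S v, CardLE (fun w => A' (θ i, w) ∧ proj S w = v) (2 ^ (mS i S)) := by
    intro i S v
    have h1 := hAle (θ i) S v
    rwa [show look (θ i).2 S = mS i S from look_tab _ _] at h1
  have hzA : ∀ i, A' (θ i, z i) := by
    intro i
    refine hAmem (θ i) (z i) ⟨by simpa [z] using i.hp, fun S => ?_⟩ fun S => ?_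
    · show K U (proj S (z i)) ≤ look (tab (h i)) S
      rw [look_tab]
    · rw [show look (θ i).2 S = mS i S from look_tab _ _]
      exact hj1 i S
  obtain ⟨cr, hcr⟩ := cardLE_relA hU k
  have hAfin : ∀ i, CardLE (fun w => A' (θ i, w)) (2 ^ (h i Finset.univ + cr)) := fun i =>
    (hcr i.m (h i)).mono (fun w hw => hArel _ _ hw) le_rfl
  choose a ha1 ha2 using fun i => exists_log_card (hAfin i) ⟨z i, hzA i⟩
  have ha3 : ∀ i, a i ≤ i.N + cr := by
    intro i
    have h1 := (Nat.pow_le_pow_iff_right (by norm_num)).1 ((ha1 i).le_of_cardLE (hAfin i))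
    exact h1.trans (Nat.add_le_add_right (hhN i _) _)
  obtain ⟨cu, hcu⟩ := K_proj_univ hU k
  -- the total complexity is at most a
  obtain ⟨c1, D1⟩ : ∃ c : ℕ, ∀ i, h i Finset.univ ≤ a i + c * L i := by
    obtain ⟨ci, hci⟩ := K_index hU hAsd
    obtain ⟨c, hc⟩ := hθ
    beta_reduce at hc
    refine ⟨3 * c + (ci + cu + 2), fun i => ?_⟩
    have h1 := hci (θ i) (z i) _ (hzA i) (ha2 i)
    have h2 := hc i
    have h3 := size_le_self (K U (θ i))
    have h4 := (hcu (z i)).2
    have h5 : ci + cu + 2 ≤ (ci + cu + 2) * L i := Nat.le_mul_of_pos_right _ (hL1 i)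
    rw [size_two_pow] at h1
    rw [add_mul, mul_assoc]
    show K U (proj Finset.univ (z i)) ≤ _
    omega
  -- first strings
  have hproj0 : ∀ w : Tup k, proj {0} w = [w 0] := by
    intro w; simp [proj]
  have hfib0 : ∀ i x, CardLE (fun w => A' (θ i, w) ∧ w 0 = x) (2 ^ (mS i {0})) := by
    intro i x
    refine (hfib i {0} [x]).mono ?_ le_rfl
    rintro w ⟨hw, rfl⟩
    exact ⟨hw, hproj0 w⟩
  have hlen : ∀ i w, A' (θ i, w) → (w 0).length = i.m := fun i w hw => (hArel _ _ hw).1
  obtain ⟨cs, hcs⟩ := K_le_of_computable (f := fun l : List (List Bool) => l.headI) hU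
    Primrec.list_headI.to_comp
  obtain ⟨cs', hcs'⟩ := K_le_of_computable (f := fun x : List Bool => [x]) hU
    (Computable.list_cons.comp Computable.id (Computable.const []))
  obtain ⟨c3, D3⟩ : ∃ c : ℕ, ∀ i, i.m + mS i {0} ≤ a i + c * L i := by
    refine ⟨c0 + cs + c2 + c1, fun i => ?_⟩
    have h1 := i.hK
    rw [← hL] at h1
    have h2 := hcs [i.p]
    simp only [List.headI_cons] at h2
    have h3 := D2 i {0}
    have h4 := D1 i
    have h5 : h i {0} = K U [i.p] := by
      show K U (proj {0} (z i)) = _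
      rw [hproj0]; rfl
    have h6 : cs ≤ cs * L i := Nat.le_mul_of_pos_right _ (hL1 i)
    rw [add_mul, add_mul, add_mul]
    omega
  let jj : Inst U k c0 → ℕ := fun i => a i - (i.m + 1)
  let RB : (((ℕ × List ℕ) × List ℕ) × ℕ) × List Bool → Prop := fun x =>
    CardGE (fun w => A' (x.1.1, w) ∧ w 0 = x.2) (2 ^ x.1.2)
  have hpow : Computable fun n : ℕ => 2 ^ n := by
    have h3 : Primrec fun n : ℕ => ((fun m : ℕ => 2 * m)^[n] 1) :=
      Primrec.nat_iterate (f := fun n : ℕ => n) (g := fun _ : ℕ => 1)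
        (h := fun _ m => 2 * m) Primrec.id (Primrec.const 1)
        (Primrec.nat_mul.comp (Primrec.const 2) Primrec.snd).to₂
    refine (h3.of_eq fun n => ?_).to_comp
    induction n with
    | zero => rfl
    | succ n ih => rw [Function.iterate_succ_apply', ih, pow_succ, mul_comm]
  have hRB : SD RB := by
    have h1 : SD fun x : ((((ℕ × List ℕ) × List ℕ) × ℕ) × List Bool) × Tup k =>
        A' (x.1.1.1, x.2) ∧ x.2 0 = x.1.2 := by
      refine SD.and ?_ ?_
      · exact hAsd.comp ((Computable.fst.comp (Computable.fst.comp Computable.fst)).pair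
          Computable.snd)
      · exact SD.of_computable
          (fun x : ((((ℕ × List ℕ) × List ℕ) × ℕ) × List Bool) × Tup k =>
            decide (x.2 0 = x.1.2))
          (computable_decide_eq ((computable_eval 0).comp Computable.snd)
            (Computable.snd.comp Computable.fst)) (fun x => by simp)
    exact h1.cardGE (hpow.comp (Computable.snd.comp Computable.fst))
  let b : Inst U k c0 → ℕ := fun i => a i - 1 - mS i {0}
  have hBcard : ∀ i, CardGE (fun x => RB ((θ i, jj i), x)) (2 ^ (b i)) := fun i =>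
    stage3 (ha1 i) (hlen i) (hfib0 i)
  have hRBlen : ∀ i x, RB ((θ i, jj i), x) → x.length = i.m := by
    rintro i x ⟨s, hs, hs'⟩
    have h1 : 0 < s.card := lt_of_lt_of_le (by positivity) hs
    obtain ⟨w, hw⟩ := Finset.card_pos.1 h1
    have h2 := hs' w hw
    rw [show x = w 0 from h2.2.symm]
    exact hlen i w h2.1
  have hb : ∀ i, b i ≤ i.m := by
    intro i
    have h1 : CardLE (fun x : List Bool => x.length = i.m) (2 ^ i.m) := by
      refine cardLE_of_injOn val ?_ ?_
      · intro x hx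
        have := val_lt x
        rwa [hx] at this
      · intro x y hx hy hxy
        exact val_inj (hx.trans hy.symm) hxy
    have h2 := (hBcard i).le_of_cardLE (h1.mono (hRBlen i) le_rfl)
    exact (Nat.pow_le_pow_iff_right (by norm_num)).1 h2
  obtain ⟨c4, D4⟩ : ∃ c : ℕ, ∀ i, i.m ≤ b i + c * L i := by
    refine ⟨c3 + 1, fun i => ?_⟩
    have h1 := D3 i
    have h2 := hL1 i
    rw [add_mul, one_mul]
    show i.m ≤ a i - 1 - mS i {0} + _
    omega
  obtain ⟨r, hr1, hr2, hr3, hr4, hr5⟩ := hRB.matching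
  choose x'' hx'' using fun i => hr3 (θ i, jj i) (b i) i.p' (hBcard i)
    (by rw [i.hp']; exact hb i)
  have hxRB : ∀ i, RB ((θ i, jj i), x'' i) := fun i => hr2 _ _ _ _ (hx'' i)
  have hxlen : ∀ i, (x'' i).length = i.m := fun i => hRBlen i _ (hxRB i)
  -- substitution lemmas
  have hr1' : SD fun y : (((((ℕ × List ℕ) × List ℕ) × ℕ) × ℕ) × List Bool) × List Bool =>
      r (y.1.1, (y.1.2, y.2)) :=
    hr1.comp ((Computable.fst.comp Computable.fst).pair
      ((Computable.snd.comp Computable.fst).pair Computable.snd))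
  have hr2' : SD fun y :
      ((((((ℕ × List ℕ) × List ℕ) × ℕ) × ℕ) × ℕ) × List Bool) × List Bool =>
      y.2.length = y.1.1.2 ∧ r (y.1.1.1, (y.2, y.1.2)) := by
    refine SD.and ?_ ?_
    · exact SD.of_computable (fun y :
        ((((((ℕ × List ℕ) × List ℕ) × ℕ) × ℕ) × ℕ) × List Bool) × List Bool =>
          decide (y.2.length = y.1.1.2))
        (computable_decide_eq (Computable.list_length.comp Computable.snd)
          (Computable.snd.comp (Computable.fst.comp Computable.fst))) (fun x => by simp)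
    · exact hr1.comp ((Computable.fst.comp (Computable.fst.comp Computable.fst)).pair
        (Computable.snd.pair (Computable.snd.comp Computable.fst)))
  obtain ⟨e1, he1⟩ := K_subst hU hr1'
  obtain ⟨e2, he2⟩ := K_subst hU hr2'
  have hθ3 : Sm L fun i => K U (θ i, jj i) :=
    sm_pair _ _ hθ (sm_nat cr _ fun i => (Nat.sub_le _ _).trans (ha3 i))
  have hθ4 : Sm L fun i => K U ((θ i, jj i), b i) :=
    sm_pair _ _ hθ3 (sm_nat 0 _ fun i => (hb i).trans i.hm)
  have hθ5 : Sm L fun i => K U (((θ i, jj i), b i), i.m) :=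
    sm_pair _ _ hθ4 (sm_nat 0 _ fun i => i.hm)
  obtain ⟨c5, D5⟩ : ∃ c : ℕ, ∀ i l, K U (i.p' :: l) ≤ K U (x'' i :: l) +
      c * (L i + (K U (x'' i :: l)).size) := by
    obtain ⟨c, hc⟩ := hθ5
    beta_reduce at hc
    refine ⟨c4 + e2 * (c + 1) + 1, fun i l => ?_⟩
    have h1 := he2 (((θ i, jj i), b i), i.m) (x'' i) i.p' l (2 ^ (i.m - b i))
      ⟨i.hp', hx'' i⟩ (hr5 (θ i, jj i) (b i) (x'' i) i.m (hb i))
    rw [size_two_pow] at h1
    have h2 := D4 i
    have h3 := hc i
    have h4 := hL1 i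
    generalize (K U (x'' i :: l)).size = s at h1 ⊢
    have h5 : K U (((θ i, jj i), b i), i.m) + s + 1 ≤ (c + 1) * (L i + s) := by
      have h6 : c * L i ≤ c * (L i + s) := Nat.mul_le_mul le_rfl (Nat.le_add_right _ _)
      rw [add_mul, one_mul]; omega
    have h7 := Nat.mul_le_mul (le_refl e2) h5
    have h8 : c4 * L i ≤ c4 * (L i + s) := Nat.mul_le_mul le_rfl (Nat.le_add_right _ _)
    rw [add_mul, add_mul, one_mul, mul_assoc]
    omega
  obtain ⟨c6, D6⟩ : ∃ c : ℕ, ∀ i l, K U (x'' i :: l) ≤ K U (i.p' :: l) +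
      c * (L i + (K U (i.p' :: l)).size) := by
    obtain ⟨c, hc⟩ := hθ4
    beta_reduce at hc
    refine ⟨e1 * (c + 1) + 1, fun i l => ?_⟩
    have h1 := he1 ((θ i, jj i), b i) i.p' (x'' i) l 1 (hx'' i) (hr4 _ _ _)
    have h3 := hc i
    have h4 := hL1 i
    generalize (K U (i.p' :: l)).size = s at h1 ⊢
    have h5 : K U ((θ i, jj i), b i) + s + 1 ≤ (c + 1) * (L i + s) := by
      have h6 : c * L i ≤ c * (L i + s) := Nat.mul_le_mul le_rfl (Nat.le_add_right _ _)
      rw [add_mul, one_mul]; omega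
    have h7 := Nat.mul_le_mul (le_refl e1) h5
    have h8 : Nat.size 1 = 1 := by simp
    rw [add_mul, one_mul, mul_assoc]
    omega
  -- the complexity of the matched string
  obtain ⟨cl, hcl⟩ := K_length hU
  obtain ⟨c7, D7⟩ : ∃ c : ℕ, ∀ i, i.m ≤ K U (x'' i) + c * L i := by
    obtain ⟨c, hc⟩ := sm_size (cl + cs') (fun i => K U [x'' i]) (fun i => by
      have h1 := hcs' (x'' i)
      have h2 := hcl (x'' i)
      have h3 := hxlen i
      have h4 := i.hm
      beta_reduce at h1
      omega)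
    beta_reduce at hc
    refine ⟨c0 + cs + cs' + c5 * (1 + c), fun i => ?_⟩
    have h1 := i.hK'
    rw [← hL] at h1
    have h2 := hcs [i.p']
    simp only [List.headI_cons] at h2
    have h3 := hcs' (x'' i)
    beta_reduce at h3
    have h4 := D5 i []
    have h5 := hc i
    have h6 : L i + (K U [x'' i]).size ≤ (1 + c) * L i := by
      rw [add_mul, one_mul]; omega
    have h7 := Nat.mul_le_mul (le_refl c5) h6
    have h8 : cs ≤ cs * L i := Nat.le_mul_of_pos_right _ (hL1 i)
    have h9 : cs' ≤ cs' * L i := Nat.le_mul_of_pos_right _ (hL1 i)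
    rw [add_mul, add_mul, add_mul, mul_assoc]
    omega
  -- the most complex extension
  have hw : ∀ i, ∃ w, A' (θ i, w) ∧ w 0 = x'' i ∧
      ∀ w', A' (θ i, w') → w' 0 = x'' i → K U w' ≤ K U w := by
    intro i
    have hfin : {w | A' (θ i, w) ∧ w 0 = x'' i}.Finite := (hfib0 i (x'' i)).finite
    have hne : hfin.toFinset.Nonempty := by
      obtain ⟨s, hs, hs'⟩ := hxRB i
      have h1 : 0 < s.card := lt_of_lt_of_le (by positivity) hs
      obtain ⟨w, hw⟩ := Finset.card_pos.1 h1
      exact ⟨w, by simpa using hs' w hw⟩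
    obtain ⟨w, hw, hmax⟩ := Finset.exists_max_image hfin.toFinset (fun w => K U w) hne
    have hw' : A' (θ i, w) ∧ w 0 = x'' i := by simpa using hw
    exact ⟨w, hw'.1, hw'.2, fun w' h1 h2 => hmax w' (by simpa using ⟨h1, h2⟩)⟩
  choose w hw1 hw2 hw3 using hw
  have hwS : ∀ i S, K U (proj S (w i)) ≤ h i S := by
    intro i S
    have h1 := (hArel _ _ (hw1 i)).2 S
    rwa [show look (θ i).1.2 S = h i S from look_tab _ _] at h1
  have hwN : ∀ i, K U (w i) ≤ i.N + cu := by
    intro i
    have h1 := (hcu (w i)).1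
    have h2 := hwS i Finset.univ
    have h3 := hhN i Finset.univ
    omega
  obtain ⟨c8, D8⟩ : ∃ c : ℕ, ∀ i, a i ≤ K U (w i) + c * L i := by
    have hsd : SD fun x : (((ℕ × List ℕ) × List ℕ) × ℕ) × Tup k =>
        A' (x.1.1, x.2) ∧ K U x.2 ≤ x.1.2 := by
      refine SD.and ?_ ?_
      · exact hAsd.comp ((Computable.fst.comp Computable.fst).pair Computable.snd)
      · exact (SD_K (α := Tup k) hU).comp
          (Computable.snd.pair (Computable.snd.comp Computable.fst))
    obtain ⟨ch, hch⟩ := K_heavy hU hsd (computable_eval (k := k) 0)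
    obtain ⟨c, hc⟩ := sm_pair θ (fun i => K U (w i)) hθ (sm_nat cu _ hwN)
    obtain ⟨c', hc'⟩ := sm_size cr jj fun i => (Nat.sub_le _ _).trans (ha3 i)
    beta_reduce at hc hc'
    refine ⟨c7 + ch * (c + c' + 1) + 2, fun i => ?_⟩
    have h1 := hch (θ i, K U (w i)) (jj i) (K U (w i) + 1) (x'' i)
      ((cardLE_K (α := Tup k) hU (K U (w i))).mono (fun w' hw' => hw'.2) le_rfl)
      ((hxRB i).mono (fun w' hw' => ⟨⟨hw'.1, hw3 i w' hw'.1 hw'.2⟩, hw'.2⟩) le_rfl)
    have h2 := D7 i
    have h3 := hc i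
    have h4 := hc' i
    have h5 := hL1 i
    have h6 : K U (θ i, K U (w i)) + (jj i).size + 1 ≤ (c + c' + 1) * L i := by
      rw [add_mul, add_mul, one_mul]; omega
    have h7 := Nat.mul_le_mul (le_refl ch) h6
    have h8 : a i ≤ jj i + i.m + 1 := by
      show a i ≤ a i - (i.m + 1) + i.m + 1
      omega
    rw [add_mul, add_mul, mul_assoc]
    omega
  obtain ⟨c9, D9⟩ : ∃ c : ℕ, ∀ i S, h i S ≤ K U (proj S (w i)) + c * L i := by
    choose cc hcc using fun S : Finset (Fin (k + 1)) =>
      K_light hU hAsd (computable_proj (k := k) S)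
    obtain ⟨c, hc⟩ := hθ
    have hsz : ∀ S, Sm L fun i => (K U (proj S (w i))).size := fun S =>
      sm_size 0 _ fun i => (hwS i S).trans (hhN i S)
    choose e he using hsz
    beta_reduce at he
    beta_reduce at hc
    refine ⟨c2 + c1 + c8 + 1 + (∑ S, cc S) * (c + (∑ S, e S) + 1), fun i S => ?_⟩
    have h1 := hcc S (θ i) (w i) _ (hw1 i) (hfib i S (proj S (w i)))
    rw [size_two_pow] at h1
    have h2 := hc i
    have h3 := he S i
    have h4 : e S * L i ≤ (∑ S, e S) * L i := Nat.mul_le_mul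
      (Finset.single_le_sum (fun _ _ => Nat.zero_le _) (Finset.mem_univ S)) le_rfl
    have h5 := hL1 i
    have h6 : K U (θ i) + (K U (proj S (w i))).size + 1 ≤ (c + (∑ S, e S) + 1) * L i := by
      rw [add_mul, add_mul, one_mul]; omega
    have h7 : cc S * (K U (θ i) + (K U (proj S (w i))).size + 1) ≤
        (∑ S, cc S) * ((c + (∑ S, e S) + 1) * L i) := Nat.mul_le_mul
      (Finset.single_le_sum (fun _ _ => Nat.zero_le _) (Finset.mem_univ S)) h6
    have h8 := D2 i S
    have h9 := D1 i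
    have h10 := D8 i
    rw [add_mul, add_mul, add_mul, add_mul, one_mul, mul_assoc]
    omega
  -- conclusion
  have hwcons : ∀ i, w i = (Fin.cons (x'' i) (fun t => w i t.succ) : Tup k) := by
    intro i
    rw [← hw2 i]
    exact (Fin.cons_self_tail (w i)).symm
  obtain ⟨c10, D10⟩ : ∃ c : ℕ, ∀ i S,
      K U (proj S (Fin.cons i.p' (fun t => w i t.succ) : Tup k)) ≤
        K U (proj S (w i)) + c * L i := by
    have hsz : ∀ S, Sm L fun i => (K U (proj S (w i))).size := fun S =>
      sm_size 0 _ fun i => (hwS i S).trans (hhN i S)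
    choose e he using hsz
    beta_reduce at he
    refine ⟨c5 * (1 + ∑ S, e S), fun i S => ?_⟩
    rcases proj_cons_cases S with hc | hc
    · have h1 := hc i.p' (x'' i) (fun t => w i t.succ)
      rw [h1, ← hwcons i]
      exact Nat.le_add_right _ _
    · obtain ⟨l, hl⟩ := hc (fun t => w i t.succ)
      have h1 : proj S (w i) = x'' i :: l := by rw [hwcons i]; exact hl _
      rw [hl, h1]
      have h2 := D5 i l
      have h3 := he S i
      simp only [h1] at h3
      have h4 : e S * L i ≤ (∑ S, e S) * L i := Nat.mul_le_mul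
        (Finset.single_le_sum (fun _ _ => Nat.zero_le _) (Finset.mem_univ S)) le_rfl
      have h6 : L i + (K U (x'' i :: l)).size ≤ (1 + ∑ S, e S) * L i := by
        rw [add_mul, one_mul]; omega
      have h7 := Nat.mul_le_mul (le_refl c5) h6
      rw [mul_assoc]
      omega
  obtain ⟨c11, D11⟩ : ∃ c : ℕ, ∀ i S, K U (proj S (w i)) ≤
      K U (proj S (Fin.cons i.p' (fun t => w i t.succ) : Tup k)) + c * L i := by
    refine ⟨c6 * (2 + c10.size + 1), fun i S => ?_⟩
    have h0 : (K U (proj S (Fin.cons i.p' (fun t => w i t.succ) : Tup k))).size ≤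
        (1 + c10.size + 1) * L i := by
      have h1 := D10 i S
      have h2 := hwS i S
      have h3 := hhN i S
      have h4 : K U (proj S (Fin.cons i.p' (fun t => w i t.succ) : Tup k)) ≤
          i.N + c10 * L i := by omega
      have h5 := (Nat.size_le_size h4).trans (size_add_le _ _)
      have h6 := size_mul_le c10 (L i)
      have h7 := size_le_self (L i)
      have h8 : c10.size ≤ c10.size * L i := Nat.le_mul_of_pos_right _ (hL1 i)
      have h9 := hL i
      rw [add_mul, add_mul, one_mul]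
      omega
    rcases proj_cons_cases S with hc | hc
    · have h1 := hc i.p' (x'' i) (fun t => w i t.succ)
      rw [h1, ← hwcons i]
      exact Nat.le_add_right _ _
    · obtain ⟨l, hl⟩ := hc (fun t => w i t.succ)
      have h1 : proj S (w i) = x'' i :: l := by rw [hwcons i]; exact hl _
      rw [hl] at h0 ⊢
      rw [h1]
      have h2 := D6 i l
      have h6 : L i + (K U (i.p' :: l)).size ≤ (2 + c10.size + 1) * L i := by
        have : (2 + c10.size + 1) * L i = L i + (1 + c10.size + 1) * L i := by ring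
        omega
      have h7 := Nat.mul_le_mul (le_refl c6) h6
      rw [mul_assoc]
      omega
  refine ⟨c9 + c10 + c11, fun i => ⟨fun t => w i t.succ, fun S => ⟨?_, ?_⟩⟩⟩
  · have h1 := D9 i S
    have h2 := D11 i S
    show h i S ≤ _ + (c9 + c10 + c11) * L i
    rw [add_mul, add_mul]
    omega
  · have h1 := D10 i S
    have h2 := hwS i S
    show _ ≤ h i S + (c9 + c10 + c11) * L i
    rw [add_mul, add_mul]
    omega

end Pool.Agent.Lib.MP_7eeb8f_lc
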