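import Pool.Agent.Lib.MP_7eeb8f_lc.K

/-!
Sanity checks for the definitions: optimal decompressors exist, and computable tuple encodings
exist, including one that codes the one-element tuple with entry `x` by `x` itself.
-/

set_option autoImplicit false
set_option linter.unusedSectionVars false

namespace Pool.Agent.Lib.MP_7eeb8f_lc

open Encodable Denumerable

/-- the standard universal decompressor: `1 ^ i 0 p` is run as program number `i` on `p` -/
def universal : List Bool →. List Bool := fun s =>
  (Nat.Partrec.Code.eval (Denumerable.ofNat Nat.Partrec.Code (s.takeWhile id).length)
    (encode (s.drop ((s.takeWhile id).length + 1)))).bind fun n =>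
      ((decode n : Option (List Bool)) : Part (List Bool))

theorem universal_isOptimal : IsOptimal universal := by
  constructor
  · have hk : Computable fun s : List Bool => (s.takeWhile id).length :=
      (Primrec.list_length.comp (Primrec.list_takeWhile (p := id) Primrec.id)).to_comp
    have h1 : Computable fun s : List Bool =>
        Denumerable.ofNat Nat.Partrec.Code (s.takeWhile id).length :=
      (Computable.ofNat Nat.Partrec.Code).comp hk
    have h2 : Computable fun s : List Bool => encode (s.drop ((s.takeWhile id).length + 1)) :=
      Computable.encode.comp (Primrec.list_drop.to_comp.comp (Computable.succ.comp hk)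
        Computable.id)
    have h3 : Partrec₂ fun (_ : List Bool) (n : ℕ) =>
        ((decode n : Option (List Bool)) : Part (List Bool)) :=
      (Computable.decode.comp Computable.snd).ofOption
    exact (Nat.Partrec.Code.eval_part.comp h1 h2).bind h3
  · intro D hD
    obtain ⟨c, hc⟩ := Nat.Partrec.Code.exists_code.1 hD
    refine ⟨encode c + 1, fun p x hx => ⟨List.replicate (encode c) true ++ (false :: p), ?_, ?_⟩⟩
    · have hk : ((List.replicate (encode c) true ++ (false :: p)).takeWhile id).length
          = encode c := by
        rw [List.takeWhile_append_of_pos]
        · simp
        · intro a ha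
          simp only [List.mem_replicate] at ha
          simp [ha.2]
      have h2 : (List.replicate (encode c) true ++ (false :: p)).drop (encode c + 1) = p := by
        rw [List.drop_append]; simp
      unfold universal
      simp only [hk, h2, Denumerable.ofNat_encode]
      refine Part.mem_bind_iff.2 ⟨encode x, ?_, by rw [encodek]; exact Part.mem_some x⟩
      rw [hc]
      simp only [encodek, Part.coe_some, Part.bind_some]
      exact Part.mem_map _ hx
    · simp only [List.length_append, List.length_replicate, List.length_cons]
      omega

theorem exists_isOptimal : ∃ U, IsOptimal U := ⟨universal, universal_isOptimal⟩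

/-- a computable encoding of all tuples -/
theorem enc_isTupleEncoding : IsTupleEncoding (enc : List (List Bool) → List Bool) :=
  ⟨computable_enc, fun _ _ _ h => enc_injective h⟩

/-- a computable encoding of all tuples that codes `[x]` by `x` -/
theorem exists_isTupleEncoding_single :
    ∃ e, IsTupleEncoding e ∧ ∀ x : List Bool, e [x] = x := by
  refine ⟨fun l => bif decide (l.length = 1) then l.headI else enc l, ⟨?_, ?_⟩, fun x => rfl⟩
  · exact Computable.cond
      (computable_decide_eq Computable.list_length (Computable.const 1))
      Primrec.list_headI.to_comp computable_enc
  · intro l l' hl h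
    by_cases h1 : l.length = 1
    · have h2 : l'.length = 1 := hl ▸ h1
      simp only [h1, h2, decide_true, cond_true] at h
      obtain ⟨a, rfl⟩ := List.length_eq_one_iff.1 h1
      obtain ⟨b, rfl⟩ := List.length_eq_one_iff.1 h2
      simp only [List.headI_cons] at h
      rw [h]
    · have h2 : ¬ l'.length = 1 := hl ▸ h1
      simp only [h1, h2, decide_false, cond_false] at h
      exact enc_injective h

end Pool.Agent.Lib.MP_7eeb8f_lc
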