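import Pool.Agent.Lib.MP_7eeb8f_lc.Count

/-!
The typization construction: enumerable families of clones of a given tuple.
-/

set_option autoImplicit false
set_option linter.unusedSectionVars false

namespace Pool.Agent.Lib.MP_7eeb8f_lc

open Encodable Denumerable

/-- tuples of `k + 1` strings -/
abbrev Tup (k : ℕ) := Fin (k + 1) → List Bool

/-- the subtuple with index set `S` -/
def proj {k : ℕ} (S : Finset (Fin (k + 1))) (z : Tup k) : List (List Bool) :=
  (S.sort (· ≤ ·)).map z

/-- tabulation of a function on index sets -/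
noncomputable def tab {k : ℕ} (f : Finset (Fin (k + 1)) → ℕ) : List ℕ :=
  (Finset.univ : Finset (Finset (Fin (k + 1)))).toList.map f

/-- reading a table -/
noncomputable def look {k : ℕ} (l : List ℕ) (S : Finset (Fin (k + 1))) : ℕ :=
  l.getD ((Finset.univ : Finset (Finset (Fin (k + 1)))).toList.idxOf S) 0

theorem look_tab {k : ℕ} (f : Finset (Fin (k + 1)) → ℕ) (S : Finset (Fin (k + 1))) :
    look (tab f) S = f S := by
  have h : (Finset.univ : Finset (Finset (Fin (k + 1)))).toList.idxOf S <
      (Finset.univ : Finset (Finset (Fin (k + 1)))).toList.length :=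
    List.idxOf_lt_length_iff.2 (by simp)
  rw [look, tab, List.getD_eq_getElem?_getD, List.getElem?_map, List.getElem?_eq_getElem h,
    List.getElem_idxOf]
  rfl

theorem computable_look {k : ℕ} (S : Finset (Fin (k + 1))) :
    Computable fun l : List ℕ => look l S :=
  ((Primrec.list_getD 0).comp Primrec.id (Primrec.const _)).to_comp

theorem computable_map_tup {k : ℕ} (L : List (Fin (k + 1))) :
    Computable fun z : Tup k => L.map z := by
  induction L with
  | nil => exact Computable.const _
  | cons i L ih =>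
    exact Computable.list_cons.comp (Computable.fin_app.comp Computable.id (Computable.const i)) ih

theorem computable_proj {k : ℕ} (S : Finset (Fin (k + 1))) : Computable (proj (k := k) S) :=
  computable_map_tup _

theorem computable_eval {k : ℕ} (i : Fin (k + 1)) : Computable fun z : Tup k => z i :=
  Computable.fin_app.comp Computable.id (Computable.const i)

/-- recover a tuple from the list of its entries -/
def untup (k : ℕ) (l : List (List Bool)) : Tup k := fun i => l.getD i []

theorem computable_untup (k : ℕ) : Computable (untup k) := by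
  have h : Primrec₂ (untup k) :=
    (Primrec.list_getD []).comp Primrec.fst (Primrec.fin_val.comp Primrec.snd)
  exact (Primrec.fin_curry.2 h).to_comp

theorem untup_proj_univ {k : ℕ} (z : Tup k) : untup k (proj Finset.univ z) = z := by
  funext i
  have h : (i : ℕ) < (List.finRange (k + 1)).length := by
    rw [List.length_finRange]; exact i.2
  rw [untup, proj, Fin.sort_univ, List.getD_eq_getElem?_getD, List.getElem?_map,
    List.getElem?_eq_getElem h, List.getElem_finRange]
  rfl

theorem proj_cons_cases {k : ℕ} (S : Finset (Fin (k + 1))) :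
    (∀ (x x' : List Bool) (y : Fin k → List Bool),
      proj S (Fin.cons x y : Tup k) = proj S (Fin.cons x' y : Tup k)) ∨
    (∀ y : Fin k → List Bool, ∃ l, ∀ x : List Bool, proj S (Fin.cons x y : Tup k) = x :: l) := by
  have key : ∀ (T : Finset (Fin (k + 1))), (0 : Fin (k + 1)) ∉ T →
      ∀ (x x' : List Bool) (y : Fin k → List Bool),
      proj T (Fin.cons x y : Tup k) = proj T (Fin.cons x' y : Tup k) := by
    intro T hT x x' y
    refine List.map_congr_left fun i hi => ?_
    rw [Finset.mem_sort] at hi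
    have hi0 : i ≠ 0 := fun h => hT (h ▸ hi)
    obtain ⟨j, rfl⟩ := Fin.exists_succ_eq.2 hi0
    simp
  by_cases h0 : (0 : Fin (k + 1)) ∈ S
  · right
    intro y
    refine ⟨proj (S.erase 0) (Fin.cons [] y : Tup k), fun x => ?_⟩
    rw [key (S.erase 0) (by simp) [] x y]
    conv_lhs => rw [← Finset.insert_erase h0]
    rw [proj, Finset.sort_insert (· ≤ ·) (fun b _ => Fin.zero_le b) (by simp), List.map_cons,
      Fin.cons_zero]
    rfl
  · left
    exact key S h0

variable {U : List Bool →. List Bool} (hU : IsOptimal U)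

/-- the enumerable family of tuples dominated by a profile -/
def relA (U : List Bool →. List Bool) (k : ℕ) : (ℕ × List ℕ) × Tup k → Prop := fun x =>
  (x.2 0).length = x.1.1 ∧ ∀ S : Finset (Fin (k + 1)), K U (proj S x.2) ≤ look x.1.2 S

include hU

theorem SD_relA (k : ℕ) : SD (relA U k) := by
  refine SD.and ?_ ?_
  · exact SD.of_computable (fun x : (ℕ × List ℕ) × Tup k => decide ((x.2 0).length = x.1.1))
      (computable_decide_eq (Computable.list_length.comp ((computable_eval 0).comp Computable.snd))
        (Computable.fst.comp Computable.fst)) (fun x => by simp)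
  · refine SD.forall_fintype fun S => ?_
    exact (SD_K (α := List (List Bool)) hU).comp
      (((computable_proj S).comp Computable.snd).pair
        ((computable_look S).comp (Computable.snd.comp Computable.fst)))

theorem K_proj_univ (k : ℕ) : ∃ c : ℕ, ∀ w : Tup k,
    K U w ≤ K U (proj Finset.univ w) + c ∧ K U (proj Finset.univ w) ≤ K U w + c := by
  obtain ⟨c, hc⟩ := K_le_of_computable hU (computable_untup k)
  obtain ⟨c', hc'⟩ := K_le_of_computable hU (computable_proj (k := k) Finset.univ)
  refine ⟨c + c', fun w => ⟨?_, ?_⟩⟩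
  · have := hc (proj Finset.univ w)
    rw [untup_proj_univ] at this
    omega
  · have := hc' w
    omega

theorem cardLE_relA (k : ℕ) : ∃ c : ℕ, ∀ (m : ℕ) (h : Finset (Fin (k + 1)) → ℕ),
    CardLE (fun w : Tup k => relA U k ((m, tab h), w)) (2 ^ (h Finset.univ + c)) := by
  obtain ⟨c, hc⟩ := K_proj_univ hU k
  refine ⟨c + 1, fun m h => ?_⟩
  refine (cardLE_K (α := Tup k) hU (h Finset.univ + c)).mono (fun w hw => ?_) le_rfl
  have h1 := hw.2 Finset.univ
  simp only [look_tab] at h1
  have := (hc w).1
  omega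

/-- fibres through the given tuple are as small as the profile predicts -/
theorem stage1 (k : ℕ) : ∃ c : ℕ, ∀ (m : ℕ) (h : Finset (Fin (k + 1)) → ℕ) (z : Tup k),
    (z 0).length = m → (∀ S, K U (proj S z) = h S) →
    ∃ j : Finset (Fin (k + 1)) → ℕ,
      (∀ S, CardLE (fun w => relA U k ((m, tab h), w) ∧ proj S w = proj S z) (2 ^ (j S + 1))) ∧
      (∀ S, h S + j S ≤ h Finset.univ + c * (K U (m, tab h) + (j S).size + 1)) ∧
      (∀ S, j S ≤ h Finset.univ + c) := by
  classical
  obtain ⟨c1, hc1⟩ := cardLE_relA hU k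
  choose c2 hc2 using fun S : Finset (Fin (k + 1)) =>
    K_heavy hU (SD_relA hU k) (computable_proj (k := k) S)
  refine ⟨c1 + ∑ S, c2 S, fun m h z hz hh => ?_⟩
  have hA : relA U k ((m, tab h), z) := ⟨hz, fun S => by rw [hh, look_tab]⟩
  have hex : ∀ S, ∃ j, CardGE (fun w => relA U k ((m, tab h), w) ∧ proj S w = proj S z) (2 ^ j) ∧
      CardLE (fun w => relA U k ((m, tab h), w) ∧ proj S w = proj S z) (2 ^ (j + 1)) := fun S =>
    exists_log_card ((hc1 m h).mono (fun w hw => hw.1) le_rfl) ⟨z, hA, rfl⟩
  choose j hj hj' using hex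
  refine ⟨j, hj', fun S => ?_, fun S => ?_⟩
  · have h1 := hc2 S (m, tab h) (j S) (h Finset.univ + c1) (proj S z) (hc1 m h) (hj S)
    rw [hh] at h1
    have h2 : c2 S ≤ ∑ S, c2 S := Finset.single_le_sum (fun _ _ => Nat.zero_le _)
      (Finset.mem_univ S)
    generalize K U (m, tab h) = x at h1 ⊢
    generalize (j S).size = y at h1 ⊢
    have h3 : c2 S * (x + y + 1) ≤ (∑ S, c2 S) * (x + y + 1) := Nat.mul_le_mul h2 le_rfl
    have h4 : c1 ≤ c1 * (x + y + 1) := Nat.le_mul_of_pos_right _ (by omega)
    calc h S + j S ≤ h Finset.univ + c1 + c2 S * (x + y + 1) := h1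
      _ ≤ h Finset.univ + c1 * (x + y + 1) + (∑ S, c2 S) * (x + y + 1) := by omega
      _ = _ := by ring
  · have h1 : 2 ^ (j S) ≤ 2 ^ (h Finset.univ + c1) :=
      ((hj S).mono (fun w hw => hw.1) le_rfl).le_of_cardLE (hc1 m h)
    have h2 := (Nat.pow_le_pow_iff_right (by norm_num)).1 h1
    omega

/-- the truncated family: all fibres are small -/
theorem stage2 (k : ℕ) : ∃ A' : ((ℕ × List ℕ) × List ℕ) × Tup k → Prop, SD A' ∧
    (∀ θ w, A' (θ, w) → relA U k (θ.1, w)) ∧
    (∀ θ (S : Finset (Fin (k + 1))) v,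
      CardLE (fun w => A' (θ, w) ∧ proj S w = v) (2 ^ (look θ.2 S))) ∧
    (∀ θ w, relA U k (θ.1, w) →
      (∀ S, CardLE (fun w' => relA U k (θ.1, w') ∧ proj S w' = proj S w) (2 ^ (look θ.2 S))) →
      A' (θ, w)) := by
  classical
  have hpow : Computable fun n : ℕ => 2 ^ n := by
    have h3 : Primrec fun n : ℕ => ((fun m : ℕ => 2 * m)^[n] 1) :=
      Primrec.nat_iterate (f := fun n : ℕ => n) (g := fun _ : ℕ => 1)
        (h := fun _ m => 2 * m) Primrec.id (Primrec.const 1)
        (Primrec.nat_mul.comp (Primrec.const 2) Primrec.snd).to₂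
    refine (h3.of_eq fun n => ?_).to_comp
    induction n with
    | zero => rfl
    | succ n ih => rw [Function.iterate_succ_apply', ih, pow_succ, mul_comm]
  have hp : ∀ S : Finset (Fin (k + 1)),
      SD fun x : (((ℕ × List ℕ) × List ℕ) × List (List Bool)) × Tup k =>
        relA U k (x.1.1.1, x.2) ∧ proj S x.2 = x.1.2 := by
    intro S
    refine SD.and ?_ ?_
    · exact (SD_relA hU k).comp ((Computable.fst.comp (Computable.fst.comp Computable.fst)).pair
        Computable.snd)
    · exact SD.of_computable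
        (fun x : (((ℕ × List ℕ) × List ℕ) × List (List Bool)) × Tup k =>
          decide (proj S x.2 = x.1.2))
        (computable_decide_eq ((computable_proj S).comp Computable.snd)
          (Computable.snd.comp Computable.fst)) (fun x => by simp)
  have hT : ∀ S : Finset (Fin (k + 1)),
      Computable fun x : ((ℕ × List ℕ) × List ℕ) × List (List Bool) => 2 ^ (look x.1.2 S) :=
    fun S => hpow.comp ((computable_look S).comp (Computable.snd.comp Computable.fst))
  choose q hq1 hq2 hq3 hq4 hq5 using fun S => (hp S).trunc (hT S)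
  refine ⟨fun x => ∀ S, q S ((x.1, proj S x.2), x.2), ?_, ?_, ?_, ?_⟩
  · refine SD.forall_fintype fun S => ?_
    exact (hq1 S).comp ((Computable.fst.pair ((computable_proj S).comp Computable.snd)).pair
      Computable.snd)
  · intro θ w hw
    exact (hq2 Finset.univ _ _ (hw Finset.univ)).1
  · intro θ S v
    refine (hq3 S (θ, v)).mono ?_ le_rfl
    rintro w ⟨hw, rfl⟩
    exact hw S
  · intro θ w hw hS S
    exact hq4 S (θ, proj S w) (hS S) w ⟨hw, rfl⟩

omit hU in
/-- double counting over the first string -/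
theorem stage3 {k : ℕ} {P : Tup k → Prop} {a m m0 : ℕ} (h1 : CardGE P (2 ^ a))
    (h2 : ∀ w, P w → (w 0).length = m)
    (h3 : ∀ x, CardLE (fun w => P w ∧ w 0 = x) (2 ^ m0)) :
    CardGE (fun x => CardGE (fun w => P w ∧ w 0 = x) (2 ^ (a - (m + 1)))) (2 ^ (a - 1 - m0)) := by
  classical
  obtain ⟨s, hs, hs'⟩ := h1
  set j := a - (m + 1) with hj
  set t := s.image fun w => w 0 with ht
  set B : List Bool → Prop := fun x => CardGE (fun w => P w ∧ w 0 = x) (2 ^ j) with hB
  have hcard : s.card = ∑ x ∈ t, (s.filter fun w => w 0 = x).card :=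
    Finset.card_eq_sum_card_image (fun w : Tup k => w 0) s
  have hsplit : ∑ x ∈ t, (s.filter fun w => w 0 = x).card
      = ∑ x ∈ t.filter B, (s.filter fun w => w 0 = x).card +
        ∑ x ∈ t.filter (fun x => ¬ B x), (s.filter fun w => w 0 = x).card :=
    (Finset.sum_filter_add_sum_filter_not t B _).symm
  have hA : ∑ x ∈ t.filter B, (s.filter fun w => w 0 = x).card ≤ (t.filter B).card * 2 ^ m0 := by
    refine Finset.sum_le_card_nsmul _ _ _ fun x _ => ?_
    refine h3 x _ fun w hw => ?_
    rw [Finset.mem_filter] at hw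
    exact ⟨hs' w hw.1, hw.2⟩
  have hN : ∑ x ∈ t.filter (fun x => ¬ B x), (s.filter fun w => w 0 = x).card ≤
      (t.filter (fun x => ¬ B x)).card * (2 ^ j - 1) := by
    refine Finset.sum_le_card_nsmul _ _ _ fun x hx => ?_
    rw [Finset.mem_filter] at hx
    by_contra hlt
    refine hx.2 ⟨s.filter fun w => w 0 = x, by omega, fun w hw => ?_⟩
    rw [Finset.mem_filter] at hw
    exact ⟨hs' w hw.1, hw.2⟩
  have htm : (t.filter (fun x => ¬ B x)).card ≤ 2 ^ m := by
    refine (cardLE_of_injOn (P := fun x : List Bool => x.length = m) val ?_ ?_) _ ?_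
    · intro x hx
      have := val_lt x
      rwa [hx] at this
    · intro x y hx hy hxy
      exact val_inj (hx.trans hy.symm) hxy
    · intro x hx
      rw [Finset.mem_filter, ht, Finset.mem_image] at hx
      obtain ⟨⟨w, hw, rfl⟩, -⟩ := hx
      exact h2 w (hs' w hw)
  have hprod : (t.filter (fun x => ¬ B x)).card * (2 ^ j - 1) ≤ 2 ^ m * (2 ^ j - 1) :=
    Nat.mul_le_mul htm le_rfl
  have htot : 2 ^ a ≤ (t.filter B).card * 2 ^ m0 + 2 ^ m * (2 ^ j - 1) := by omega
  have hmain : 2 ^ (a - 1) ≤ (t.filter B).card * 2 ^ m0 := by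
    rcases Nat.lt_or_ge a (m + 1) with hlt | hge
    · have hj0 : j = 0 := by omega
      rw [hj0] at htot
      simp only [pow_zero, Nat.sub_self, mul_zero, add_zero] at htot
      exact (Nat.pow_le_pow_right (by norm_num) (Nat.sub_le a 1)).trans htot
    · have hmj : m + j = a - 1 := by omega
      have h4 : 2 ^ m * (2 ^ j - 1) ≤ 2 ^ (a - 1) := by
        rw [← hmj, pow_add]
        exact Nat.mul_le_mul le_rfl (Nat.sub_le _ _)
      have h5 : 2 ^ a = 2 ^ (a - 1) + 2 ^ (a - 1) := by
        have h6 : a = (a - 1) + 1 := by omega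
        conv_lhs => rw [h6, pow_succ]
        ring
      omega
  refine ⟨t.filter B, ?_, fun x hx => (Finset.mem_filter.1 hx).2⟩
  rcases Nat.lt_or_ge (a - 1) m0 with hlt | hge
  · have h6 : a - 1 - m0 = 0 := by omega
    rw [h6, pow_zero]
    by_contra h7
    have h8 : (t.filter B).card = 0 := by omega
    rw [h8, zero_mul] at hmain
    have : 0 < 2 ^ (a - 1) := by positivity
    omega
  · have h6 : 2 ^ (a - 1) = 2 ^ (a - 1 - m0) * 2 ^ m0 := by
      rw [← pow_add]; congr 1; omega
    rw [h6] at hmain
    exact Nat.le_of_mul_le_mul_right hmain (by positivity)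

end Pool.Agent.Lib.MP_7eeb8f_lc
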